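import Mathlib
import Pool.Agent.H602R3.DHJ.GR

set_option autoImplicit false

/-!
# Deuber's theorem for linear forms

For every colouring of the integer sequences with a fixed leading coefficient and bounded other
coefficients there are linearly independent (in echelon form) sequences whose `(k, p, c)`-set is
monochromatic. From the Hales-Jewett theorem.
-/

namespace Pool.Agent.V11270.CZ

open Finset
open Pool.Agent.H602R3.DHJ (HJ ap Pr)

/-- sequences with the coefficient `C` at an index `i < n`, with coefficients of size at most `P`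
before `i`, and zero after `i` -/
def FS (n : ℕ) (P C : ℤ) : Set (ℕ → ℤ) :=
  {v | ∃ i < n, v i = C ∧ (∀ j < i, |v j| ≤ P) ∧ ∀ j, i < j → v j = 0}

theorem FS_bound {n : ℕ} {P C : ℤ} (hC : 0 < C) (hCP : C ≤ P) {v : ℕ → ℤ} (hv : v ∈ FS n P C)
    (m : ℕ) : |v m| ≤ P := by
  obtain ⟨i, -, h1, h2, h3⟩ := hv
  rcases lt_trichotomy m i with h | h | h
  · exact h2 m h
  · rw [h, h1, abs_of_pos hC]
    exact hCP
  · rw [h3 m h, abs_zero]
    linarith

theorem FS_zero {n : ℕ} {P C : ℤ} {v : ℕ → ℤ} (hv : v ∈ FS n P C)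
    (m : ℕ) (hm : n ≤ m) : v m = 0 := by
  obtain ⟨i, hi, -, -, h3⟩ := hv
  exact h3 m (by omega)

/-- a letter as a sequence -/
def dec (n B : ℕ) (b : Fin n → Fin (2 * B + 1)) (m : ℕ) : ℤ :=
  if h : m < n then ((b ⟨m, h⟩ : ℕ) : ℤ) - B else 0

theorem dec_le (n B : ℕ) (b : Fin n → Fin (2 * B + 1)) (m : ℕ) : |dec n B b m| ≤ B := by
  unfold dec
  split_ifs with h
  · have := (b ⟨m, h⟩).2
    rw [abs_le]
    constructor <;> omega
  · rw [abs_zero]
    exact Int.natCast_nonneg _

theorem dec_surj (n B : ℕ) (L : ℕ → ℤ) (h1 : ∀ m, |L m| ≤ B) (h2 : ∀ m, n ≤ m → L m = 0) :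
    ∃ b, dec n B b = L := by
  refine ⟨fun j => ⟨(L j + B).toNat, ?_⟩, ?_⟩
  · have := abs_le.1 (h1 j)
    omega
  · funext m
    unfold dec
    split_ifs with h
    · have := abs_le.1 (h1 m)
      push_cast
      rw [Int.toNat_of_nonneg (by linarith)]
      ring
    · exact (h2 m (by omega)).symm

/-- rows: for every leading index the colour is constant -/
theorem frows (q p c₀ : ℕ) (hc : 0 < c₀) : ∀ M : ℕ, ∃ (n : ℕ) (P C : ℤ), 0 < C ∧ C ≤ P ∧
    ∀ χ : (ℕ → ℤ) → Fin q, ∃ (W : ℕ → ℕ → ℤ) (l : ℕ → ℕ) (r : ℕ → Fin q),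
      (∀ i < M, l i < n ∧ W i (l i) ≠ 0 ∧ ∀ m, l i < m → W i m = 0) ∧
      (∀ i < M, ∀ j < i, l j < l i) ∧
      ∀ i < M, ∀ μ : ℕ → ℤ, (∀ j, |μ j| ≤ p) →
        (fun m => c₀ * W i m + ∑ j ∈ range i, μ j * W j m) ∈ FS n P C ∧
        χ (fun m => c₀ * W i m + ∑ j ∈ range i, μ j * W j m) = r i := by
  intro M
  induction M with
  | zero =>
    refine ⟨0, 1, 1, one_pos, le_rfl, fun χ => ⟨0, 0, fun _ => χ 0, ?_, ?_, ?_⟩⟩
    · intro i hi; exact absurd hi (Nat.not_lt_zero _)
    · intro i hi; exact absurd hi (Nat.not_lt_zero _)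
    · intro i hi; exact absurd hi (Nat.not_lt_zero _)
  | succ M ih =>
    classical
    obtain ⟨n, P, C, hC, hCP, ih⟩ := ih
    have hP : 0 ≤ P := by linarith
    obtain ⟨B, hB⟩ : ∃ B : ℕ, (B : ℤ) = p * M * P := ⟨(p * M * P).toNat, Int.toNat_of_nonneg (by positivity)⟩
    obtain ⟨N, hN⟩ := HJ (Fin n → Fin (2 * B + 1)) (Fin q) Unit
    have hc' : (0 : ℤ) < c₀ := by exact_mod_cast hc
    have hB0 : (0 : ℤ) ≤ B := Int.natCast_nonneg _
    refine ⟨n * N + 1, c₀ * (P + B), c₀ * C, by positivity, mul_le_mul_of_nonneg_left (by linarith) hc'.le, fun χ => ?_⟩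
    have hmod : ∀ m, m < n * N → m % N < N := by
      intro m hm
      refine Nat.mod_lt _ (Nat.pos_of_ne_zero ?_)
      rintro rfl
      simp at hm
    -- the sequence of a word
    obtain ⟨form, hform⟩ : ∃ form : (Fin N → Fin n → Fin (2 * B + 1)) → ℕ → ℤ, form = fun y m =>
      if m = n * N then c₀ * C else if h : m < n * N then c₀ * dec n B (y ⟨m % N, hmod m h⟩) (m / N)
        else 0 := ⟨_, rfl⟩
    obtain ⟨V, hV, col, hcol⟩ := hN (fun y => χ (form y))
    -- the last active index
    obtain ⟨i₀, hi₀⟩ := hV ()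
    obtain ⟨t₀, ht₀, hmax⟩ := exists_max_image (univ.filter (fun t : Fin N => V t = Sum.inr ()))
      (fun t => (t : ℕ)) ⟨i₀, mem_filter.2 ⟨mem_univ _, hi₀⟩⟩
    have ht₀' := (mem_filter.1 ht₀).2
    have hNpos : 0 < N := Fin.pos t₀
    -- active letters
    obtain ⟨act, hact⟩ : ∃ act : ℕ → Prop, act = fun t => ∃ h : t < N, V ⟨t, h⟩ = Sum.inr () := ⟨_, rfl⟩
    have hact0 : act t₀ := by
      rw [hact]
      exact ⟨t₀.2, ht₀'⟩
    have hactle : ∀ t, act t → t ≤ t₀ := by
      intro t ht
      rw [hact] at ht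
      obtain ⟨h1, h2⟩ := ht
      exact hmax ⟨t, h1⟩ (mem_filter.2 ⟨mem_univ _, h2⟩)
    obtain ⟨Φ, hΦ⟩ : ∃ Φ : (ℕ → ℤ) → ℕ → ℤ, Φ = fun (L : ℕ → ℤ) (m : ℕ) =>
      if m < n * N ∧ act (m % N) then (c₀ : ℤ) * L (m / N) else 0 := ⟨_, rfl⟩
    obtain ⟨a, ha⟩ : ∃ a : ℕ → ℤ, a = fun m => if m = n * N then C else if h : m < n * N then
      Sum.elim (fun b => dec n B b (m / N)) (fun _ => 0) (V ⟨m % N, hmod m h⟩) else 0 := ⟨_, rfl⟩
    have hformV : ∀ b, form (ap V (fun _ => b)) = fun m => c₀ * a m + Φ (dec n B b) m := by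
      intro b
      funext m
      simp only [hform, ha, hΦ]
      by_cases h1 : m = n * N
      · rw [if_pos h1, if_pos h1, if_neg (by omega), add_zero]
      · rw [if_neg h1, if_neg h1]
        by_cases h2 : m < n * N
        · rw [dif_pos h2, dif_pos h2]
          unfold ap
          rcases hVm : V ⟨m % N, hmod m h2⟩ with b' | u
          · have h3 : ¬ (m < n * N ∧ act (m % N)) := by
              rintro ⟨-, h4⟩
              rw [hact] at h4
              obtain ⟨h5, h6⟩ := h4
              rw [hVm] at h6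
              exact absurd h6 (by simp)
            rw [if_neg h3]
            simp
          · have h3 : m < n * N ∧ act (m % N) := by
              refine ⟨h2, ?_⟩
              rw [hact]
              exact ⟨hmod m h2, by rw [hVm]⟩
            rw [if_pos h3]
            simp
        · rw [dif_neg h2, dif_neg h2, if_neg (fun h => h2 h.1)]
          simp
    obtain ⟨W', l', r', hW', hl', hrow⟩ := ih (fun L => χ (Φ L))
    -- entries of the old sequences
    have hW'b : ∀ j < M, ∀ m, |W' j m| ≤ P := by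
      intro j hj m
      have h1 := (hrow j hj (fun _ => 0) (fun _ => by simp)).1
      have h2 := FS_bound hC hCP h1 m
      simp only [zero_mul, sum_const_zero, add_zero] at h2
      rw [abs_mul, abs_of_pos hc'] at h2
      refine le_trans ?_ h2
      have h3 : (1 : ℤ) ≤ c₀ := hc'
      nlinarith [abs_nonneg (W' j m)]
    have hW'z : ∀ j < M, ∀ m, n ≤ m → W' j m = 0 := by
      intro j hj m hm
      exact (hW' j hj).2.2 m (lt_of_lt_of_le (hW' j hj).1 hm)
    -- images of leading indices
    have hdiv : ∀ i, (i * N + t₀) / N = i := by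
      intro i
      rw [mul_comm, Nat.mul_add_div hNpos, Nat.div_eq_of_lt t₀.2, add_zero]
    have hmd : ∀ i, (i * N + t₀) % N = t₀ := by
      intro i
      rw [mul_comm, Nat.mul_add_mod, Nat.mod_eq_of_lt t₀.2]
    have hlt : ∀ i, i < n → i * N + t₀ < n * N := by
      intro i hi
      have h1 : (i + 1) * N ≤ n * N := Nat.mul_le_mul_right _ hi
      have h2 := t₀.2
      nlinarith
    have hafter : ∀ i m, i * N + t₀ < m → act (m % N) → i < m / N := by
      intro i m hm h
      have h1 := hactle _ h
      have h2 := Nat.div_add_mod m N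
      by_contra hcon
      push Not at hcon
      have h3 : N * (m / N) ≤ N * i := Nat.mul_le_mul_left _ hcon
      have h4 : N * i = i * N := mul_comm _ _
      omega
    have hΦat : ∀ (L : ℕ → ℤ) (i : ℕ), i < n → Φ L (i * N + t₀) = c₀ * L i := by
      intro L i hi
      rw [hΦ]
      change (if i * N + t₀ < n * N ∧ act ((i * N + t₀) % N) then c₀ * L ((i * N + t₀) / N) else 0) = _
      rw [hmd, hdiv, if_pos ⟨hlt i hi, hact0⟩]
    have hΦz : ∀ (L : ℕ → ℤ) (i : ℕ), (∀ m, i < m → L m = 0) → ∀ m, i * N + t₀ < m → Φ L m = 0 := by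
      intro L i hL m hm
      rw [hΦ]
      change (if m < n * N ∧ act (m % N) then c₀ * L (m / N) else 0) = _
      split_ifs with h
      · rw [hL _ (hafter i m hm h.2), mul_zero]
      · rfl
    have hΦFS : ∀ L ∈ FS n P C, Φ L ∈ FS (n * N + 1) (c₀ * (P + B)) (c₀ * C) := by
      intro L hL
      have hb := FS_bound hC hCP hL
      obtain ⟨i, hi, h1, -, h3⟩ := hL
      refine ⟨i * N + t₀, (hlt i hi).trans (Nat.lt_succ_self _), ?_, ?_, hΦz L i h3⟩
      · rw [hΦat L i hi, h1]
      · intro m _
        rw [hΦ]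
        change |if m < n * N ∧ act (m % N) then c₀ * L (m / N) else 0| ≤ _
        split_ifs with h
        · rw [abs_mul, abs_of_pos hc']
          exact mul_le_mul_of_nonneg_left (by linarith [hb (m / N)]) hc'.le
        · rw [abs_zero]
          positivity
    have hformFS : ∀ y, form y ∈ FS (n * N + 1) (c₀ * (P + B)) (c₀ * C) := by
      intro y
      refine ⟨n * N, Nat.lt_succ_self _, ?_, ?_, ?_⟩
      · simp only [hform, if_true]
      · intro m hm
        simp only [hform]
        rw [if_neg hm.ne, dif_pos hm, abs_mul, abs_of_pos hc']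
        refine mul_le_mul_of_nonneg_left ?_ hc'.le
        have := dec_le n B (y ⟨m % N, hmod m hm⟩) (m / N)
        linarith
      · intro m hm
        simp only [hform]
        rw [if_neg hm.ne', dif_neg (by omega)]
    have hlin : ∀ (μ : ℕ → ℤ) (i : ℕ) (m : ℕ), ∑ j ∈ range i, μ j * Φ (W' j) m =
        Φ (fun m => ∑ j ∈ range i, μ j * W' j m) m := by
      intro μ i m
      simp only [hΦ]
      split_ifs with h
      · rw [mul_sum]
        exact sum_congr rfl fun j _ => by ring
      · simp
    refine ⟨fun i => if i < M then Φ (W' i) else a, fun i => if i < M then l' i * N + t₀ else n * N,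
      fun i => if i < M then r' i else col, ?_, ?_, ?_⟩
    · intro i hi
      simp only
      by_cases h : i < M
      · rw [if_pos h, if_pos h]
        obtain ⟨h1, h2, h3⟩ := hW' i h
        refine ⟨(hlt _ h1).trans (Nat.lt_succ_self _), ?_, hΦz _ _ h3⟩
        rw [hΦat _ _ h1]
        exact mul_ne_zero hc'.ne' h2
      · rw [if_neg h, if_neg h]
        refine ⟨Nat.lt_succ_self _, ?_, ?_⟩
        · simp only [ha, if_true]
          exact hC.ne'
        · intro m hm
          simp only [ha]
          rw [if_neg hm.ne', dif_neg (by omega)]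
    · intro i hi j hj
      simp only
      have hjM : j < M := by omega
      rw [if_pos hjM]
      by_cases h : i < M
      · rw [if_pos h]
        have h1 := hl' i h j hj
        have h2 : (l' j + 1) * N ≤ l' i * N := Nat.mul_le_mul_right _ h1
        nlinarith
      · rw [if_neg h]
        exact hlt _ (hW' j hjM).1
    · intro i hi μ hμ
      by_cases h : i < M
      · have hfun : (fun m => (c₀ : ℤ) * (if i < M then Φ (W' i) else a) m +
            ∑ j ∈ range i, μ j * (if j < M then Φ (W' j) else a) m) =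
            Φ (fun m => c₀ * W' i m + ∑ j ∈ range i, μ j * W' j m) := by
          funext m
          have h1 : ∑ j ∈ range i, μ j * (if j < M then Φ (W' j) else a) m =
              ∑ j ∈ range i, μ j * Φ (W' j) m := sum_congr rfl fun j hj => by
            rw [if_pos ((mem_range.1 hj).trans h)]
          rw [h1, hlin, if_pos h]
          simp only [hΦ]
          split_ifs with h2
          · ring
          · simp
        rw [hfun]
        obtain ⟨h1, h2⟩ := hrow i h μ hμ
        refine ⟨hΦFS _ h1, ?_⟩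
        change _ = if i < M then r' i else col
        rw [if_pos h]
        exact h2
      · have hiM : i = M := by omega
        subst hiM
        obtain ⟨b, hb⟩ := dec_surj n B (fun m => ∑ j ∈ range i, μ j * W' j m) (fun m => by
            rw [hB]
            calc |∑ j ∈ range i, μ j * W' j m| ≤ ∑ j ∈ range i, |μ j * W' j m| := abs_sum_le_sum_abs _ _
              _ ≤ ∑ j ∈ range i, (p : ℤ) * P := sum_le_sum fun j hj => by
                  rw [abs_mul]
                  exact mul_le_mul (hμ j) (hW'b j (mem_range.1 hj) m) (abs_nonneg _)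
                    (Int.natCast_nonneg _)
              _ = _ := by
                  rw [sum_const, card_range, nsmul_eq_mul]
                  ring)
          (fun m hm => sum_eq_zero fun j hj => by rw [hW'z j (mem_range.1 hj) m hm, mul_zero])
        have hfun : (fun m => (c₀ : ℤ) * (if i < i then Φ (W' i) else a) m +
            ∑ j ∈ range i, μ j * (if j < i then Φ (W' j) else a) m) = form (ap V (fun _ => b)) := by
          rw [hformV]
          funext m
          have h1 : ∑ j ∈ range i, μ j * (if j < i then Φ (W' j) else a) m =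
              ∑ j ∈ range i, μ j * Φ (W' j) m := sum_congr rfl fun j hj => by
            rw [if_pos (mem_range.1 hj)]
          rw [h1, hlin, if_neg h, hb]
        rw [hfun]
        refine ⟨hformFS _, ?_⟩
        change _ = if i < i then r' i else col
        rw [if_neg h]
        exact hcol _

/-- **Deuber's theorem for linear forms.** -/
theorem fdeuber (q p c₀ K : ℕ) (hc : 0 < c₀) : ∃ (n : ℕ) (P C : ℤ), 0 < C ∧ C ≤ P ∧
    ∀ χ : (ℕ → ℤ) → Fin q, ∃ (W : Fin K → ℕ → ℤ) (l : Fin K → ℕ) (col : Fin q),
      (∀ i, l i < n ∧ W i (l i) ≠ 0 ∧ ∀ m, l i < m → W i m = 0) ∧ StrictMono l ∧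
      ∀ i, ∀ μ : Fin K → ℤ, (∀ j, |μ j| ≤ p) →
        (fun m => c₀ * W i m + ∑ j ∈ univ.filter (fun j => j < i), μ j * W j m) ∈ FS n P C ∧
        χ (fun m => c₀ * W i m + ∑ j ∈ univ.filter (fun j => j < i), μ j * W j m) = col := by
  classical
  obtain ⟨n, P, C, hC, hCP, h⟩ := frows q p c₀ hc (q * K)
  refine ⟨n, P, C, hC, hCP, fun χ => ?_⟩
  obtain ⟨W, l, r, hW, hl, hrow⟩ := h χ
  -- a colour with at least `K` rows
  have hex : ∃ col : Fin q, K ≤ ((range (q * K)).filter (fun i => r i = col)).card := by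
    have hρ : 0 < q := Fin.pos (χ 0)
    by_contra hcon
    push Not at hcon
    have h1 : (range (q * K)).card = ∑ col : Fin q, ((range (q * K)).filter (fun i => r i = col)).card :=
      card_eq_sum_card_fiberwise (fun i _ => mem_coe.2 (mem_univ (r i)))
    have h2 : ∑ col : Fin q, ((range (q * K)).filter (fun i => r i = col)).card < ∑ _col : Fin q, K := by
      apply sum_lt_sum_of_nonempty
      · exact ⟨⟨0, hρ⟩, mem_univ _⟩
      · intro col _
        exact hcon col
    rw [← h1, card_range, sum_const, card_univ, Fintype.card_fin, smul_eq_mul] at h2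
    exact absurd h2 (lt_irrefl _)
  obtain ⟨col, hcol⟩ := hex
  obtain ⟨T, hTsub, hTc⟩ := exists_subset_card_eq hcol
  obtain ⟨e, he⟩ : ∃ e, e = T.orderEmbOfFin hTc := ⟨_, rfl⟩
  have heT : ∀ a, e a ∈ T := fun a => by
    rw [he]
    exact orderEmbOfFin_mem T hTc a
  have heM : ∀ a, e a < q * K ∧ r (e a) = col := fun a => by
    have := mem_filter.1 (hTsub (heT a))
    exact ⟨mem_range.1 this.1, this.2⟩
  refine ⟨fun i => W (e i), fun i => l (e i), col, fun i => hW _ (heM i).1, ?_, ?_⟩
  · intro i j hij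
    exact hl _ (heM j).1 _ (e.strictMono hij)
  · intro i μ hμ
    obtain ⟨lam, hlam⟩ : ∃ lam : ℕ → ℤ, lam = fun j => if h : ∃ b : Fin K, e b = j then μ h.choose else 0 :=
      ⟨_, rfl⟩
    have hlamle : ∀ j, |lam j| ≤ p := by
      intro j
      simp only [hlam]
      split_ifs with h
      · exact hμ _
      · rw [abs_zero]
        exact Int.natCast_nonneg _
    have hlamb : ∀ b : Fin K, lam (e b) = μ b := by
      intro b
      have h : ∃ b' : Fin K, e b' = e b := ⟨b, rfl⟩
      simp only [hlam]
      rw [dif_pos h]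
      have h1 := h.choose_spec
      rw [e.injective h1]
    have hsum : ∀ m, ∑ j ∈ range (e i), lam j * W j m =
        ∑ j ∈ univ.filter (fun j => j < i), μ j * W (e j) m := by
      intro m
      rw [← sum_subset (s₁ := (univ.filter (fun b : Fin K => b < i)).image e)]
      · rw [sum_image (fun a _ b _ h => e.injective h)]
        exact sum_congr rfl fun b _ => by rw [hlamb b]
      · intro j hj
        obtain ⟨b, hb, rfl⟩ := mem_image.1 hj
        exact mem_range.2 (e.strictMono (mem_filter.1 hb).2)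
      · intro j hj hnj
        simp only [hlam]
        rw [dif_neg, zero_mul]
        rintro ⟨b, hb⟩
        apply hnj
        refine mem_image.2 ⟨b, mem_filter.2 ⟨mem_univ _, ?_⟩, hb⟩
        have h2 := mem_range.1 hj
        rw [← hb] at h2
        exact e.lt_iff_lt.1 h2
    obtain ⟨h1, h2⟩ := hrow (e i) (heM i).1 lam hlamle
    have hfun : (fun m => (c₀ : ℤ) * W (e i) m + ∑ j ∈ range (e i), lam j * W j m) =
        (fun m => c₀ * W (e i) m + ∑ j ∈ univ.filter (fun j => j < i), μ j * W (e j) m) := by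
      funext m
      rw [hsum]
    rw [hfun] at h1 h2
    exact ⟨h1, h2.trans (heM i).2⟩

end Pool.Agent.V11270.CZ
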