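import Mathlib
import Pool.Agent.V11270.CZ.Forms
import Pool.Agent.V11270.CZ.Deub

set_option autoImplicit false

/-!
# Monochromatic Deuber sets in shifted Collatz-invariant sets

A positive proportion of all systems of generators up to `N` has a monochromatic `(k, p, c)`-set
which is contained in the given shifted invariant set.
-/

namespace Pool.Agent.V11270.CZ

open Finset Filter Topology
open Pool.Agent.Results.MP_2d22f3_nt.GowersNorms (Invariant HasDensity Points)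

/-- the points of a box with given values of forms in echelon form -/
theorem echelon_card {n k : ℕ} (v : Fin n → ℤ) (A u : ℕ) (W : Fin k → Fin n → ℤ) (l : Fin k → Fin n)
    (hl : Function.Injective l) (hW : ∀ i, W i (l i) ≠ 0 ∧ ∀ m, l i < m → W i m = 0)
    (w : Fin k → ℤ) :
    {x : Fin n → ℤ | x ∈ Box v A u ∧ ∀ i, ∑ j, W i j * x j = w i}.ncard ≤ u ^ (n - k) := by
  classical
  set T : Finset ({j : Fin n // j ∉ Set.range l} → ℤ) := Fintype.piFinset
    (fun j => Finset.Ioc (2 * A * u * v j.1) (2 * A * u * v j.1 + u)) with hT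
  have hTc : T.card = u ^ (n - k) := by
    rw [hT, Fintype.card_piFinset]
    simp only [Int.card_Ioc, add_sub_cancel_left, Int.toNat_natCast, prod_const, card_univ]
    congr 1
    rw [Fintype.card_subtype_compl, Fintype.card_fin]
    congr 1
    have h1 := Set.card_range_of_injective hl
    rw [Fintype.card_fin] at h1
    exact (Fintype.card_congr (Equiv.refl _)).trans h1
  rw [← hTc, ← Set.ncard_coe_finset]
  refine Set.ncard_le_ncard_of_injOn (fun x j => x j.1) ?_ ?_ (Finset.finite_toSet _)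
  · rintro x ⟨hx, -⟩
    rw [mem_coe, hT, Fintype.mem_piFinset]
    intro j
    rw [mem_Ioc]
    exact hx j.1
  · rintro x ⟨-, hx⟩ y ⟨-, hy⟩ hxy
    have hoff : ∀ j, j ∉ Set.range l → x j = y j := fun j hj => congrFun hxy ⟨j, hj⟩
    by_contra hne
    obtain ⟨j₁, hj₁⟩ := Function.ne_iff.1 hne
    obtain ⟨j₀, hj₀, hmin⟩ := exists_min_image (univ.filter (fun j => x j ≠ y j)) id
      ⟨j₁, mem_filter.2 ⟨mem_univ _, hj₁⟩⟩
    have hj₀' := (mem_filter.1 hj₀).2
    have hr : j₀ ∈ Set.range l := by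
      by_contra h
      exact hj₀' (hoff j₀ h)
    obtain ⟨i, rfl⟩ := hr
    have h1 : ∑ j, W i j * (x j - y j) = 0 := by
      simp only [mul_sub]
      rw [sum_sub_distrib, hx i, hy i, sub_self]
    rw [sum_eq_single (l i)] at h1
    · rcases mul_eq_zero.1 h1 with h2 | h2
      · exact (hW i).1 h2
      · exact hj₀' (by linarith)
    · intro j _ hj
      rcases lt_or_gt_of_ne hj with h2 | h2
      · have h3 : x j = y j := by
          by_contra h4
          have h5 := hmin j (mem_filter.2 ⟨mem_univ _, h4⟩)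
          exact absurd h2 (not_lt.2 h5)
        rw [h3, sub_self, mul_zero]
      · rw [(hW i).2 j h2, zero_mul]
    · intro h2
      exact absurd (mem_univ _) h2

/-- the value of a sequence of coefficients at a point -/
def ev {n : ℕ} (x : Fin n → ℤ) (L : ℕ → ℤ) : ℤ := ∑ j : Fin n, L j * x j

/-- the values of the sequences are positive at the powers of `P + 1` -/
theorem ev_pos {n : ℕ} {P C : ℤ} (hC : 0 < C) (hCP : C ≤ P) {L : ℕ → ℤ} (hL : L ∈ FS n P C) :
    0 < ev (fun j : Fin n => (P + 1) ^ (j : ℕ)) L := by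
  obtain ⟨i, hi, h1, h2, h3⟩ := hL
  have hP : 0 < P := by linarith
  have e1 : ev (fun j : Fin n => (P + 1) ^ (j : ℕ)) L = ∑ m ∈ range n, L m * (P + 1) ^ m := by
    unfold ev
    rw [Fin.sum_univ_eq_sum_range (fun m => L m * (P + 1) ^ m) n]
  have e2 : ∑ m ∈ range n, L m * (P + 1) ^ m = ∑ m ∈ range (i + 1), L m * (P + 1) ^ m := by
    symm
    apply sum_subset
    · intro m hm
      rw [mem_range] at hm ⊢
      omega
    · intro m _ hm
      rw [mem_range, not_lt] at hm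
      rw [h3 m (by omega), zero_mul]
  rw [e1, e2, sum_range_succ, h1]
  have h4 : ∑ m ∈ range i, (-P) * (P + 1) ^ m ≤ ∑ m ∈ range i, L m * (P + 1) ^ m := by
    refine sum_le_sum fun m hm => ?_
    exact mul_le_mul_of_nonneg_right (abs_le.1 (h2 m (mem_range.1 hm))).1 (by positivity)
  have h5 : ∑ m ∈ range i, (-P) * (P + 1) ^ m = -((P + 1) ^ i - 1) := by
    have h6 := mul_geom_sum (P + 1) i
    rw [← mul_sum]
    have h7 : P + 1 - 1 = P := by ring
    rw [h7] at h6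
    linarith
  have h8 : (P + 1) ^ i ≤ C * (P + 1) ^ i := by
    have : (0 : ℤ) < (P + 1) ^ i := by positivity
    nlinarith
  linarith

/-- **Monochromatic Deuber sets in shifted invariant sets.** -/
theorem deuber_in (q p c₀ k : ℕ) (hc : 0 < c₀) (β : ℝ) (hβ : 0 < β) : ∃ κ : ℝ, 0 < κ ∧
    ∃ N₀ : ℕ, ∀ s : ℤ, (s = 1 ∨ s = -1) → ∀ S : Set ℤ, Invariant S →
      ∀ ρ : ℝ, HasDensity s S ρ → β ≤ ρ → ∀ N : ℕ, N₀ ≤ N → ∀ h : ℤ, |(h : ℝ)| ≤ κ * N →
      ∀ χ : ℕ → Fin q, κ * (N : ℝ) ^ k ≤ ({w : Fin k → ℕ | (∀ i, 1 ≤ w i ∧ w i ≤ N) ∧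
        ∃ col : Fin q, ∀ i, ∀ μ : Fin k → ℤ, (∀ j, |μ j| ≤ p) → ∃ m : ℕ, 1 ≤ m ∧ m ≤ N ∧
          (m : ℤ) = c₀ * w i + ∑ j ∈ univ.filter (fun j => j < i), μ j * w j ∧ χ m = col ∧
          s * m + h ∈ S}.ncard : ℝ) := by
  classical
  obtain ⟨n, P, C, hC, hCP, hdeu⟩ := fdeuber q p c₀ k hc
  have hP : 0 < P := by linarith
  have hc' : (0 : ℤ) < c₀ := by exact_mod_cast hc
  -- the family of the forms
  obtain ⟨res, hres⟩ : ∃ res : (ℕ → ℤ) → Fin n → ℤ, res = fun L j => L j := ⟨_, rfl⟩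
  obtain ⟨ex, hex⟩ : ∃ ex : (Fin n → ℤ) → ℕ → ℤ, ex = fun L m => if h : m < n then L ⟨m, h⟩ else 0 :=
    ⟨_, rfl⟩
  have hexres : ∀ L ∈ FS n P C, ex (res L) = L := by
    intro L hL
    funext m
    simp only [hex, hres]
    split_ifs with h
    · rfl
    · exact (FS_zero hL m (by omega)).symm
  obtain ⟨FF, hFF⟩ : ∃ FF : Finset (Fin n → ℤ), FF =
    (Fintype.piFinset (fun _ => Icc (-P) P)).filter (fun L => ex L ∈ FS n P C) := ⟨_, rfl⟩
  have hmemFF : ∀ L ∈ FS n P C, res L ∈ FF := by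
    intro L hL
    rw [hFF, mem_filter, hexres L hL]
    refine ⟨?_, hL⟩
    rw [Fintype.mem_piFinset]
    intro j
    rw [mem_Icc, hres]
    exact abs_le.1 (FS_bound hC hCP hL j)
  obtain ⟨r, hr⟩ : ∃ r, r = FF.card := ⟨_, rfl⟩
  obtain ⟨eq⟩ : Nonempty (Fin r ≃ FF) := ⟨(Fintype.equivFinOfCardEq (by rw [hr]; simp)).symm⟩
  obtain ⟨Λ, hΛ⟩ : ∃ Λ : Fin r → Fin n → ℤ, Λ = fun i => (eq i).1 := ⟨_, rfl⟩
  have hΛFS : ∀ i, ex (Λ i) ∈ FS n P C := by
    intro i
    have h1 := (eq i).2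
    rw [hΛ]
    have h2 : (eq i).1 ∈ (Fintype.piFinset (fun _ => Icc (-P) P)).filter (fun L => ex L ∈ FS n P C) := by
      rw [← hFF]
      exact h1
    exact (mem_filter.1 h2).2
  have hlead : ∀ i, ∃ t : Fin n, Λ i t = C ∧ ∀ j, t < j → Λ i j = 0 := by
    intro i
    obtain ⟨t, ht, h1, -, h3⟩ := hΛFS i
    refine ⟨⟨t, ht⟩, ?_, fun j hj => ?_⟩
    · simp only [hex] at h1
      rw [dif_pos ht] at h1
      exact h1
    · have h4 := h3 j hj
      simp only [hex] at h4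
      rw [dif_pos j.2] at h4
      exact h4
  have hne : ∀ i, Λ i ≠ 0 := by
    intro i h
    obtain ⟨t, h1, -⟩ := hlead i
    rw [h] at h1
    exact hC.ne h1
  have hind : ∀ i j, i ≠ j → ∀ a b : ℤ, a • Λ i = b • Λ j → a = 0 ∧ b = 0 := by
    intro i j hij a b hab
    have hval : ∀ m, a * Λ i m = b * Λ j m := by
      intro m
      have := congrFun hab m
      simpa only [Pi.smul_apply, smul_eq_mul] using this
    obtain ⟨t, h1, h2⟩ := hlead i
    obtain ⟨t', h1', h2'⟩ := hlead j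
    rcases lt_trichotomy t t' with h | h | h
    · have h3 := hval t'
      rw [h2 t' h, h1', mul_zero] at h3
      have hb : b = 0 := (mul_eq_zero.1 h3.symm).resolve_right hC.ne'
      have h4 := hval t
      rw [h1, hb, zero_mul] at h4
      exact ⟨(mul_eq_zero.1 h4).resolve_right hC.ne', hb⟩
    · subst h
      have h3 := hval t
      rw [h1, h1'] at h3
      have hab' : a = b := mul_right_cancel₀ hC.ne' h3
      subst hab'
      by_cases ha : a = 0
      · exact ⟨ha, ha⟩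
      · exfalso
        apply hij
        apply eq.injective
        apply Subtype.ext
        have h5 : Λ i = Λ j := funext fun m => mul_left_cancel₀ ha (hval m)
        rw [hΛ] at h5
        exact h5
    · have h3 := hval t
      rw [h2' t h, h1, mul_zero] at h3
      have ha : a = 0 := (mul_eq_zero.1 h3).resolve_right hC.ne'
      have h4 := hval t'
      rw [h1', ha, zero_mul] at h4
      exact ⟨ha, (mul_eq_zero.1 h4.symm).resolve_right hC.ne'⟩
  obtain ⟨v, hv⟩ : ∃ v : Fin n → ℤ, v = fun j : Fin n => (P + 1) ^ (j : ℕ) := ⟨_, rfl⟩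
  have hvpos : ∀ i, 0 < ∑ j, Λ i j * v j := by
    intro i
    have h1 := ev_pos hC hCP (hΛFS i)
    unfold ev at h1
    rw [hv]
    refine lt_of_lt_of_eq h1 (sum_congr rfl fun j _ => ?_)
    simp only [hex]
    rw [dif_pos j.2]
  obtain ⟨u₁, hu₁⟩ := forms_in Λ hne hind v hvpos (Or.inl rfl : (1 : ℤ) = 1 ∨ _) hβ
  obtain ⟨u₂, hu₂⟩ := forms_in Λ hne hind v hvpos (Or.inr rfl : (-1 : ℤ) = 1 ∨ _) hβ
  obtain ⟨K, hK⟩ : ∃ K : ℕ, K = KK Λ v := ⟨_, rfl⟩
  have hK1 : 1 ≤ K := by rw [hK]; unfold KK; omega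
  have hKR : (1 : ℝ) ≤ K := by exact_mod_cast hK1
  -- the systems of generators
  obtain ⟨TT, hTT⟩ : ∃ TT : Finset (Fin k → Fin n → ℤ), TT =
    (Fintype.piFinset (fun _ : Fin k => Fintype.piFinset (fun _ : Fin n => Icc (-P) P))).filter
      (fun W => ∃ l : Fin k → Fin n, Function.Injective l ∧ ∀ i, W i (l i) ≠ 0 ∧
        ∀ m, l i < m → W i m = 0) := ⟨_, rfl⟩
  obtain ⟨T, hT⟩ : ∃ T : ℝ, T = (TT.card : ℝ) + 1 := ⟨_, rfl⟩
  have hT0 : 0 < T := by rw [hT]; positivity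
  obtain ⟨κ, hκ⟩ : ∃ κ : ℝ, κ = min (1 / (2 * (K : ℝ))) (β ^ r / (2 * T * (2 * (K : ℝ)) ^ k)) := ⟨_, rfl⟩
  have hκ0 : 0 < κ := by rw [hκ]; exact lt_min (by positivity) (by positivity)
  refine ⟨κ, hκ0, 2 * K * (u₁ + u₂ + 1), fun s hs S hS ρ hρ hβρ N hN h hh χ => ?_⟩
  obtain ⟨u, hu⟩ : ∃ u : ℕ, u = N / K := ⟨_, rfl⟩
  have huN : K * u ≤ N := by rw [hu]; exact Nat.mul_div_le N K
  have huN2 : N < K * (u + 1) := by
    rw [hu]
    exact Nat.lt_mul_div_succ N hK1
  have hubig : 2 * (u₁ + u₂ + 1) ≤ u := by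
    rw [hu, Nat.le_div_iff_mul_le hK1]
    calc 2 * (u₁ + u₂ + 1) * K = 2 * K * (u₁ + u₂ + 1) := by ring
      _ ≤ N := hN
  have hu1 : 1 ≤ u := by omega
  have huR : (1 : ℝ) ≤ u := by exact_mod_cast hu1
  have huZ : (1 : ℤ) ≤ u := by exact_mod_cast hu1
  have hNu : (N : ℝ) ≤ 2 * K * u := by
    have h1 : N ≤ 2 * K * u := by
      have h2 : K * (u + 1) ≤ K * (2 * u) := Nat.mul_le_mul_left _ (by omega)
      calc N ≤ K * (u + 1) := huN2.le
        _ ≤ K * (2 * u) := h2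
        _ = 2 * K * u := by ring
    exact_mod_cast h1
  have hhu : |h| ≤ (u : ℤ) := by
    have h1 : |(h : ℝ)| ≤ u := by
      refine hh.trans ?_
      calc κ * N ≤ 1 / (2 * K) * (2 * K * u) :=
            mul_le_mul (by rw [hκ]; exact min_le_left _ _) hNu (by positivity) (by positivity)
        _ = u := by field_simp
    exact_mod_cast h1
  -- the good points
  obtain ⟨G, hG⟩ : ∃ G : Set (Fin n → ℤ), G = {x : Fin n → ℤ | x ∈ Box v (AA Λ) u ∧
    ∀ i, s * (∑ j, Λ i j * x j) + h ∈ S} := ⟨_, rfl⟩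
  have hGcard : β ^ r / 2 * (u : ℝ) ^ n ≤ (G.ncard : ℝ) := by
    rw [hG]
    rcases hs with rfl | rfl
    · exact hu₁ (fun _ => S) (fun _ => ρ) (fun _ => hS) (fun _ => hρ) (fun _ => hβρ) u (by omega)
        (fun _ => h) (fun _ => hhu)
    · exact hu₂ (fun _ => S) (fun _ => ρ) (fun _ => hS) (fun _ => hρ) (fun _ => hβρ) u (by omega)
        (fun _ => h) (fun _ => hhu)
  obtain ⟨Dk, hDk⟩ : ∃ Dk : Set (Fin k → ℕ), Dk = {w : Fin k → ℕ | (∀ i, 1 ≤ w i ∧ w i ≤ N) ∧
        ∃ col : Fin q, ∀ i, ∀ μ : Fin k → ℤ, (∀ j, |μ j| ≤ p) → ∃ m : ℕ, 1 ≤ m ∧ m ≤ N ∧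
          (m : ℤ) = c₀ * w i + ∑ j ∈ univ.filter (fun j => j < i), μ j * w j ∧ χ m = col ∧
          s * m + h ∈ S} := ⟨_, rfl⟩
  have hDf : Dk.Finite := by
    rw [hDk]
    refine (Set.finite_Iic (fun _ : Fin k => N)).subset ?_
    intro w hw i
    exact (hw.1 i).2
  -- the values at a good point of the sequences of the family
  have hval : ∀ x ∈ G, ∀ L ∈ FS n P C, 1 ≤ ev x L ∧ ev x L ≤ N ∧ s * ev x L + h ∈ S := by
    intro x hx L hL
    rw [hG] at hx
    obtain ⟨i, hi⟩ := eq.surjective ⟨res L, hmemFF L hL⟩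
    have h1 : Λ i = res L := by
      rw [hΛ]
      change (eq i).1 = res L
      rw [hi]
    have h2 : ∑ j, Λ i j * x j = ev x L := by
      unfold ev
      rw [h1, hres]
    have h3 := form_bounds Λ v hvpos u x hx.1 i
    have h4 := hx.2 i
    rw [h2] at h3 h4
    refine ⟨by linarith [h3.1], ?_, h4⟩
    have h5 : ((K * u : ℕ) : ℤ) ≤ N := by exact_mod_cast huN
    rw [← hK] at h3
    push_cast at h5
    linarith [h3.2, Int.natCast_nonneg (n := u)]
  -- every good point gives a good system of generators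
  have hex2 : ∀ x ∈ G, ∃ w ∈ Dk, ∃ W ∈ TT, ∀ i, ∑ j, W i j * x j = (w i : ℤ) := by
    intro x hx
    obtain ⟨W, l, col, hW, hl, hmono⟩ := hdeu (fun L => χ (ev x L).toNat)
    have hbase : ∀ i, (fun m => (c₀ : ℤ) * W i m) ∈ FS n P C := by
      intro i
      have h1 := (hmono i (fun _ => 0) (fun _ => by simp)).1
      simpa only [zero_mul, sum_const_zero, add_zero] using h1
    have hevc : ∀ i, ev x (fun m => (c₀ : ℤ) * W i m) = c₀ * ev x (W i) := by
      intro i
      unfold ev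
      rw [mul_sum]
      exact sum_congr rfl fun j _ => by ring
    have hw1 : ∀ i, 1 ≤ ev x (W i) ∧ ev x (W i) ≤ N := by
      intro i
      obtain ⟨h1, h2, -⟩ := hval x hx _ (hbase i)
      rw [hevc] at h1 h2
      have h3 : 0 < ev x (W i) := by
        by_contra hcon
        push Not at hcon
        have : (c₀ : ℤ) * ev x (W i) ≤ 0 := mul_nonpos_of_nonneg_of_nonpos hc'.le hcon
        linarith
      refine ⟨h3, le_trans ?_ h2⟩
      have h4 : (1 : ℤ) ≤ c₀ := hc'
      nlinarith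
    have hwcast : ∀ i, (((ev x (W i)).toNat : ℕ) : ℤ) = ev x (W i) := fun i =>
      Int.toNat_of_nonneg (by linarith [(hw1 i).1])
    refine ⟨fun i => (ev x (W i)).toNat, ?_, fun i j => W i j, ?_, fun i => ?_⟩
    · rw [hDk]
      refine ⟨fun i => ?_, col, fun i μ hμ => ?_⟩
      · have h1 := hw1 i
        change 1 ≤ (ev x (W i)).toNat ∧ (ev x (W i)).toNat ≤ N
        constructor <;> omega
      · obtain ⟨h1, h2⟩ := hmono i μ hμ
        obtain ⟨h3, h4, h5⟩ := hval x hx _ h1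
        have h6 : ev x (fun m => (c₀ : ℤ) * W i m + ∑ j ∈ univ.filter (fun j => j < i), μ j * W j m) =
            c₀ * ev x (W i) + ∑ j ∈ univ.filter (fun j => j < i), μ j * ev x (W j) := by
          unfold ev
          simp only [add_mul, sum_add_distrib, mul_sum, sum_mul]
          congr 1
          · exact sum_congr rfl fun j _ => by ring
          · rw [sum_comm]
            refine sum_congr rfl fun j _ => sum_congr rfl fun m _ => ?_
            ring
        refine ⟨(ev x (fun m => (c₀ : ℤ) * W i m + ∑ j ∈ univ.filter (fun j => j < i),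
          μ j * W j m)).toNat, by omega, by omega, ?_, h2, ?_⟩
        · rw [Int.toNat_of_nonneg (by linarith), h6]
          simp only [hwcast]
        · rw [Int.toNat_of_nonneg (by linarith)]
          exact h5
    · rw [hTT, mem_filter]
      refine ⟨?_, fun i => ⟨l i, (hW i).1⟩, ?_, fun i => ⟨(hW i).2.1, fun m hm => (hW i).2.2 m hm⟩⟩
      · rw [Fintype.mem_piFinset]
        intro i
        rw [Fintype.mem_piFinset]
        intro j
        rw [mem_Icc, ← abs_le]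
        have h1 := FS_bound hC hCP (hbase i) j
        rw [abs_mul, abs_of_pos hc'] at h1
        have h2 : (1 : ℤ) ≤ c₀ := hc'
        nlinarith [abs_nonneg (W i j)]
      · intro i i' hii
        exact hl.injective (Fin.mk.inj_iff.1 hii)
    · rw [hwcast]
      rfl
  -- counting
  have hcover : G ⊆ ⋃ z ∈ hDf.toFinset ×ˢ TT,
      {x : Fin n → ℤ | x ∈ Box v (AA Λ) u ∧ ∀ i, ∑ j, z.2 i j * x j = (z.1 i : ℤ)} := by
    intro x hx
    obtain ⟨w, hw, W, hW, hsum⟩ := hex2 x hx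
    rw [Set.mem_iUnion₂]
    refine ⟨(w, W), ?_, ?_, hsum⟩
    · rw [mem_product]
      exact ⟨by rw [Set.Finite.mem_toFinset]; exact hw, hW⟩
    · rw [hG] at hx
      exact hx.1
  have hkn : 1 ≤ (hDf.toFinset ×ˢ TT).card → k ≤ n := by
    intro h1
    obtain ⟨z, hz⟩ := card_pos.1 h1
    have h2 := (mem_product.1 hz).2
    rw [hTT, mem_filter] at h2
    obtain ⟨-, l, hl, -⟩ := h2
    have h3 := Fintype.card_le_of_injective l hl
    simpa using h3
  have hcard : (G.ncard : ℝ) ≤ (Dk.ncard : ℝ) * T * (u : ℝ) ^ (n - k) := by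
    have h2 := Finset.set_ncard_biUnion_le (hDf.toFinset ×ˢ TT)
      (fun z => {x : Fin n → ℤ | x ∈ Box v (AA Λ) u ∧ ∀ i, ∑ j, z.2 i j * x j = (z.1 i : ℤ)})
    have h1 : G.ncard ≤ (⋃ z ∈ hDf.toFinset ×ˢ TT,
      {x : Fin n → ℤ | x ∈ Box v (AA Λ) u ∧ ∀ i, ∑ j, z.2 i j * x j = (z.1 i : ℤ)}).ncard := by
      refine Set.ncard_le_ncard hcover ?_
      refine Set.Finite.biUnion (Finset.finite_toSet _) fun z _ => ?_
      exact (box_finite v (AA Λ) u).subset fun x hx => hx.1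
    have h3 : ∑ z ∈ hDf.toFinset ×ˢ TT,
        {x : Fin n → ℤ | x ∈ Box v (AA Λ) u ∧ ∀ i, ∑ j, z.2 i j * x j = (z.1 i : ℤ)}.ncard ≤
        ∑ _z ∈ hDf.toFinset ×ˢ TT, u ^ (n - k) := by
      refine sum_le_sum fun z hz => ?_
      have h4 := (mem_product.1 hz).2
      rw [hTT, mem_filter] at h4
      obtain ⟨-, l, hl, hW⟩ := h4
      exact echelon_card v (AA Λ) u z.2 l hl hW _
    rw [sum_const, card_product, smul_eq_mul] at h3
    have h5 : Dk.ncard = hDf.toFinset.card := Set.ncard_eq_toFinset_card _ hDf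
    rw [← h5] at h3
    have h6 : (G.ncard : ℝ) ≤ (Dk.ncard : ℝ) * TT.card * (u : ℝ) ^ (n - k) := by
      exact_mod_cast (h1.trans h2).trans h3
    refine h6.trans ?_
    apply mul_le_mul_of_nonneg_right _ (by positivity)
    apply mul_le_mul_of_nonneg_left _ (by positivity)
    rw [hT]
    linarith
  have hGpos : 0 < G.ncard := by
    have h1 : 0 < β ^ r / 2 * (u : ℝ) ^ n := by positivity
    exact_mod_cast h1.trans_le hGcard
  have hkn' : k ≤ n := by
    apply hkn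
    obtain ⟨x, hx⟩ := (Set.ncard_pos ((box_finite v (AA Λ) u).subset (fun x hx => by
      rw [hG] at hx
      exact hx.1))).1 hGpos
    obtain ⟨w, hw, W, hW, -⟩ := hex2 x hx
    exact card_pos.2 ⟨(w, W), mem_product.2 ⟨by rw [Set.Finite.mem_toFinset]; exact hw, hW⟩⟩
  have h7 : β ^ r / 2 * (u : ℝ) ^ n ≤ (Dk.ncard : ℝ) * T * (u : ℝ) ^ (n - k) := hGcard.trans hcard
  have h8 : (u : ℝ) ^ n = (u : ℝ) ^ k * (u : ℝ) ^ (n - k) := by
    rw [← pow_add]
    congr 1
    omega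
  rw [h8] at h7
  have h9 : β ^ r / 2 * (u : ℝ) ^ k ≤ (Dk.ncard : ℝ) * T := by
    have h10 : (0 : ℝ) < (u : ℝ) ^ (n - k) := by positivity
    have h11 : (β ^ r / 2 * (u : ℝ) ^ k) * (u : ℝ) ^ (n - k) ≤ ((Dk.ncard : ℝ) * T) * (u : ℝ) ^ (n - k) := by
      linarith
    exact le_of_mul_le_mul_right h11 h10
  rw [← hDk]
  calc κ * (N : ℝ) ^ k ≤ β ^ r / (2 * T * (2 * K) ^ k) * (2 * K * u) ^ k :=
        mul_le_mul (by rw [hκ]; exact min_le_right _ _) (pow_le_pow_left₀ (by positivity) hNu k)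
          (by positivity) (by positivity)
    _ = (β ^ r / 2 * (u : ℝ) ^ k) / T := by
        have h12 : (0 : ℝ) < (2 * (K : ℝ)) ^ k := by positivity
        rw [mul_pow (2 * (K : ℝ)) (u : ℝ) k]
        generalize (2 * (K : ℝ)) ^ k = Y at h12
        field_simp
    _ ≤ ((Dk.ncard : ℝ) * T) / T := div_le_div_of_nonneg_right h9 hT0.le
    _ = Dk.ncard := mul_div_cancel_right₀ _ hT0.ne'

end Pool.Agent.V11270.CZ
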