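import Mathlib
import Pool.Agent.V11270.CZ.DeubIn

set_option autoImplicit false

/-!
# Rado's theorem in shifted Collatz-invariant sets

From `deuber_in`, with the argument of Frankl, Graham and Rödl: a positive proportion of all
solutions of a system with the columns condition is monochromatic and in the shifted invariant set.
-/

namespace Pool.Agent.V11270.CZ

open Finset Filter Topology
open Pool.Agent.Results.MP_2d22f3_nt.GowersNorms (Invariant HasDensity Points)

/-- the solutions up to `N` -/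
def Sol {a b : ℕ} (A : Fin a → Fin b → ℤ) (N : ℕ) : Set (Fin b → ℕ) :=
  {x | (∀ j, 1 ≤ x j ∧ x j ≤ N) ∧ ∀ t, ∑ j, A t j * (x j : ℤ) = 0}

/-- the monochromatic solutions up to `N` in the shifted set -/
def GSol {a b : ℕ} (A : Fin a → Fin b → ℤ) (N : ℕ) {q : ℕ} (χ : ℕ → Fin q) (s h : ℤ) (S : Set ℤ) :
    Set (Fin b → ℕ) :=
  {x | x ∈ Sol A N ∧ (∃ col, ∀ j, χ (x j) = col) ∧ ∀ j, s * (x j : ℤ) + h ∈ S}

theorem Sol_finite {a b : ℕ} (A : Fin a → Fin b → ℤ) (N : ℕ) : (Sol A N).Finite :=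
  (Set.finite_Iic (fun _ : Fin b => N)).subset fun _ hx i => (hx.1 i).2

/-- common denominators -/
theorem clear_den {k b : ℕ} (γ : Fin k → Fin b → ℚ) : ∃ (c : ℕ) (g : Fin k → Fin b → ℤ), 0 < c ∧
    ∀ i j, (g i j : ℚ) = c * γ i j := by
  classical
  refine ⟨∏ x : Fin k × Fin b, (γ x.1 x.2).den, fun i j => (γ i j).num *
    ((∏ x : Fin k × Fin b, (γ x.1 x.2).den) / (γ i j).den : ℕ), ?_, fun i j => ?_⟩
  · exact prod_pos fun x _ => (γ x.1 x.2).den_pos
  · have h1 : (γ i j).den ∣ ∏ x : Fin k × Fin b, (γ x.1 x.2).den :=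
      dvd_prod_of_mem (fun x : Fin k × Fin b => (γ x.1 x.2).den) (mem_univ (i, j))
    obtain ⟨e, he⟩ := h1
    change (((γ i j).num * ((∏ x : Fin k × Fin b, (γ x.1 x.2).den) / (γ i j).den : ℕ) : ℤ) : ℚ) = _
    rw [he, Nat.mul_div_cancel_left _ (γ i j).den_pos]
    push_cast
    have h4 : ((γ i j).num : ℚ) = γ i j * (γ i j).den := (Rat.mul_den_eq_num _).symm
    rw [h4]
    ring

/-- free coordinates and kernel vectors -/
theorem free_coords {a b : ℕ} (A : Fin a → Fin b → ℤ) : ∃ (d : ℕ) (τ : Fin d → Fin b)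
    (z : Fin d → Fin b → ℤ), (∀ t s, ∑ j, A s j * z t j = 0) ∧ (∀ t, z t (τ t) ≠ 0) ∧
      (∀ t t', t ≠ t' → z t (τ t') = 0) ∧
      ∀ x : Fin b → ℤ, (∀ s, ∑ j, A s j * x j = 0) → (∀ t, x (τ t) = 0) → x = 0 := by
  classical
  obtain ⟨J, hJ, hmin⟩ := exists_min_image (univ.filter (fun J : Finset (Fin b) =>
    ∀ x : Fin b → ℤ, (∀ s, ∑ j, A s j * x j = 0) → (∀ j ∈ J, x j = 0) → x = 0)) card
    ⟨univ, mem_filter.2 ⟨mem_univ _, fun x _ hx => funext fun j => hx j (mem_univ j)⟩⟩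
  have hJ' := (mem_filter.1 hJ).2
  have hz : ∀ t : J, ∃ z : Fin b → ℤ, (∀ s, ∑ j, A s j * z j = 0) ∧ z t ≠ 0 ∧
      ∀ j ∈ J, j ≠ t → z j = 0 := by
    rintro ⟨t, ht⟩
    have h1 : ¬ ∀ x : Fin b → ℤ, (∀ s, ∑ j, A s j * x j = 0) → (∀ j ∈ J.erase t, x j = 0) → x = 0 := by
      intro hcon
      have h2 := hmin (J.erase t) (mem_filter.2 ⟨mem_univ _, hcon⟩)
      have h3 := card_erase_lt_of_mem ht
      omega
    push Not at h1
    obtain ⟨x, hx1, hx2, hx3⟩ := h1
    refine ⟨x, hx1, fun h0 => hx3 (hJ' x hx1 fun j hj => ?_), fun j hj hjt => hx2 j (mem_erase.2 ⟨hjt, hj⟩)⟩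
    by_cases hjt : j = t
    · rw [hjt]
      exact h0
    · exact hx2 j (mem_erase.2 ⟨hjt, hj⟩)
  choose z hz1 hz2 hz3 using hz
  obtain ⟨e⟩ : Nonempty (Fin J.card ≃ J) := ⟨(Fintype.equivFinOfCardEq (by simp)).symm⟩
  refine ⟨J.card, fun t => (e t).1, fun t => z (e t), fun t s => hz1 _ s, fun t => hz2 _,
    fun t t' htt => hz3 (e t) _ (e t').2 (fun h => htt (e.injective (Subtype.ext h.symm))),
    fun x hx1 hx2 => hJ' x hx1 fun j hj => ?_⟩
  obtain ⟨t, ht⟩ := e.surjective ⟨j, hj⟩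
  have h9 : x ((e t).1) = 0 := hx2 t
  rw [ht] at h9
  exact h9

/-- **Rado's theorem in shifted invariant sets.** -/
theorem rado_in {a b k : ℕ} (A : Fin a → Fin b → ℤ) (lev : Fin b → Fin k)
    (hA : ∀ i : Fin k, ∃ γ : Fin b → ℚ, (∀ j, i ≤ lev j → γ j = 0) ∧
      ∀ t, ∑ j ∈ univ.filter (fun j => lev j = i), (A t j : ℚ) = ∑ j, γ j * A t j)
    (q : ℕ) (β : ℝ) (hβ : 0 < β) : ∃ κ : ℝ, 0 < κ ∧
    ∃ N₀ : ℕ, ∀ s : ℤ, (s = 1 ∨ s = -1) → ∀ S : Set ℤ, Invariant S →
      ∀ ρ : ℝ, HasDensity s S ρ → β ≤ ρ → ∀ N : ℕ, N₀ ≤ N → ∀ h : ℤ, |(h : ℝ)| ≤ κ * N →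
      ∀ χ : ℕ → Fin q, 0 < (GSol A N χ s h S).ncard ∧
        κ * ((Sol A N).ncard : ℝ) ≤ ((GSol A N χ s h S).ncard : ℝ) := by
  classical
  choose γ hγ0 hγ using hA
  obtain ⟨c, g, hc, hg⟩ := clear_den γ
  obtain ⟨d, τ, z, hz1, hz2, hz3, hz4⟩ := free_coords A
  have hcQ : (c : ℚ) ≠ 0 := by exact_mod_cast hc.ne'
  -- the coefficients
  obtain ⟨dc, hdc⟩ : ∃ dc : Fin k → Fin b → ℤ, dc = fun i j => if lev j = i then (c : ℤ) else - g i j :=
    ⟨_, rfl⟩
  have hg0 : ∀ i j, i ≤ lev j → g i j = 0 := by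
    intro i j hij
    have h1 := hg i j
    rw [hγ0 i j hij, mul_zero] at h1
    exact_mod_cast h1
  have hdc0 : ∀ i j, i < lev j → dc i j = 0 := by
    intro i j hij
    rw [hdc]
    change (if lev j = i then (c : ℤ) else - g i j) = 0
    rw [if_neg hij.ne', hg0 i j hij.le, neg_zero]
  have hdcA : ∀ i t, ∑ j, A t j * dc i j = 0 := by
    intro i t
    have h1 : (∑ j, A t j * dc i j : ℤ) = c * ∑ j ∈ univ.filter (fun j => lev j = i), A t j -
        ∑ j, g i j * A t j := by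
      rw [sum_filter, mul_sum, ← sum_sub_distrib]
      refine sum_congr rfl fun j _ => ?_
      rw [hdc]
      change A t j * (if lev j = i then (c : ℤ) else - g i j) = _
      split_ifs with h
      · rw [hg0 i j h.ge]
        ring
      · ring
    rw [h1]
    have h2 : ((c * ∑ j ∈ univ.filter (fun j => lev j = i), A t j -
        ∑ j, g i j * A t j : ℤ) : ℚ) = 0 := by
      push_cast
      rw [hγ i t, mul_sum, ← sum_sub_distrib]
      refine sum_eq_zero fun j _ => ?_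
      rw [hg i j]
      ring
    exact_mod_cast h2
  obtain ⟨M, hM⟩ : ∃ M : Fin b → Fin (d + k) → ℤ, M = fun j =>
    Fin.append (fun t => z t j) (fun i => dc (Fin.rev i) j) := ⟨_, rfl⟩
  have hM1 : ∀ j (t : Fin d), M j (Fin.castAdd k t) = z t j := by
    intro j t
    rw [hM]
    exact Fin.append_left _ _ t
  have hM2 : ∀ j (i : Fin k), M j (Fin.natAdd d i) = dc (Fin.rev i) j := by
    intro j i
    rw [hM]
    exact Fin.append_right _ _ i
  obtain ⟨p, hp⟩ : ∃ p : ℕ, p = ∑ j, ∑ i, (M j i).natAbs := ⟨_, rfl⟩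
  have hMp : ∀ j i, |M j i| ≤ p := by
    intro j i
    have h1 : (M j i).natAbs ≤ ∑ i, (M j i).natAbs :=
      single_le_sum (f := fun i => (M j i).natAbs) (fun _ _ => Nat.zero_le _) (mem_univ i)
    have h2 : ∑ i, (M j i).natAbs ≤ ∑ j, ∑ i, (M j i).natAbs :=
      single_le_sum (f := fun j => ∑ i, (M j i).natAbs) (fun _ _ => Nat.zero_le _) (mem_univ j)
    have h3 : |M j i| = (((M j i).natAbs : ℕ) : ℤ) := Int.abs_eq_natAbs _
    rw [h3, hp]
    exact_mod_cast h1.trans h2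
  have hMA : ∀ t i, ∑ j, A t j * M j i = 0 := by
    intro t i
    refine Fin.addCases (fun t' => ?_) (fun i' => ?_) i
    · simp only [hM1]
      exact hz1 t' t
    · simp only [hM2]
      exact hdcA _ t
  obtain ⟨κ, hκ, N₀, h⟩ := deuber_in q p c (d + k) hc β hβ
  refine ⟨κ, hκ, N₀ + 1, fun s hs S hS ρ hρ hβρ N hN h' hh χ => ?_⟩
  have hmain := h s hs S hS ρ hρ hβρ N (by omega) h' hh χ
  obtain ⟨D, hD⟩ : ∃ D : Set (Fin (d + k) → ℕ), D = {w : Fin (d + k) → ℕ | (∀ i, 1 ≤ w i ∧ w i ≤ N) ∧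
        ∃ col : Fin q, ∀ i, ∀ μ : Fin (d + k) → ℤ, (∀ j, |μ j| ≤ p) → ∃ m : ℕ, 1 ≤ m ∧ m ≤ N ∧
          (m : ℤ) = c * w i + ∑ j ∈ univ.filter (fun j => j < i), μ j * w j ∧ χ m = col ∧
          s * m + h' ∈ S} := ⟨_, rfl⟩
  rw [← hD] at hmain
  obtain ⟨φ, hφ⟩ : ∃ φ : (Fin (d + k) → ℕ) → Fin b → ℕ, φ = fun w j => (∑ i, M j i * (w i : ℤ)).toNat :=
    ⟨_, rfl⟩
  -- the elements of the Deuber set
  have helt : ∀ (w : Fin (d + k) → ℕ) (j : Fin b), ∑ i, M j i * (w i : ℤ) =
      c * w (Fin.natAdd d (Fin.rev (lev j))) +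
        ∑ i ∈ univ.filter (fun i => i < Fin.natAdd d (Fin.rev (lev j))), M j i * w i := by
    intro w j
    obtain ⟨i₀, hi₀⟩ : ∃ i₀, i₀ = Fin.natAdd d (Fin.rev (lev j)) := ⟨_, rfl⟩
    rw [← hi₀]
    have h1 : M j i₀ = c := by
      rw [hi₀, hM2, Fin.rev_rev, hdc]
      change (if lev j = lev j then (c : ℤ) else _) = c
      rw [if_pos rfl]
    have h2 : ∀ i, i₀ < i → M j i = 0 := by
      intro i hi
      rw [hi₀] at hi
      refine Fin.addCases (motive := fun i => Fin.natAdd d (Fin.rev (lev j)) < i → M j i = 0)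
        (fun t hi => ?_) (fun i' hi => ?_) i hi
      · exfalso
        have := Fin.lt_def.1 hi
        simp only [Fin.val_natAdd, Fin.val_castAdd] at this
        omega
      · rw [hM2]
        apply hdc0
        have h3 := Fin.lt_def.1 hi
        simp only [Fin.val_natAdd, Fin.val_rev] at h3
        rw [Fin.lt_def, Fin.val_rev]
        omega
    have h3 : (univ : Finset (Fin (d + k))) = insert i₀ ((univ.filter (fun i => i < i₀)) ∪
        (univ.filter (fun i => i₀ < i))) := by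
      ext i
      simp only [mem_univ, mem_insert, mem_union, mem_filter, true_and, true_iff]
      rcases lt_trichotomy i i₀ with h | h | h
      · exact Or.inr (Or.inl h)
      · exact Or.inl h
      · exact Or.inr (Or.inr h)
    rw [h3, sum_insert (by simp), sum_union (by
      rw [disjoint_filter]
      intro i _ h4 h5
      exact absurd (h4.trans h5) (lt_irrefl _)), h1]
    have h4 : ∑ i ∈ univ.filter (fun i => i₀ < i), M j i * (w i : ℤ) = 0 :=
      sum_eq_zero fun i hi => by rw [h2 i (mem_filter.1 hi).2, zero_mul]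
    rw [h4, add_zero, ← h3]
  have hφcast : ∀ w ∈ D, ∀ j, ((φ w j : ℕ) : ℤ) = ∑ i, M j i * (w i : ℤ) ∧ 1 ≤ φ w j ∧ φ w j ≤ N ∧
      s * (φ w j : ℤ) + h' ∈ S := by
    intro w hw j
    rw [hD] at hw
    obtain ⟨-, col, hcol⟩ := hw
    obtain ⟨m, h1, h2, h3, h4, h5⟩ := hcol (Fin.natAdd d (Fin.rev (lev j))) (M j) (hMp j)
    rw [← helt] at h3
    have h6 : φ w j = m := by
      rw [hφ]
      change (∑ i, M j i * (w i : ℤ)).toNat = m
      rw [← h3]
      exact Int.toNat_natCast m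
    rw [h6]
    exact ⟨h3, h1, h2, h5⟩
  have hφmono : ∀ w ∈ D, ∃ col, ∀ j, χ (φ w j) = col := by
    intro w hw
    rw [hD] at hw
    obtain ⟨-, col, hcol⟩ := hw
    refine ⟨col, fun j => ?_⟩
    obtain ⟨m, h1, h2, h3, h4, h5⟩ := hcol (Fin.natAdd d (Fin.rev (lev j))) (M j) (hMp j)
    rw [← helt] at h3
    have h6 : φ w j = m := by
      rw [hφ]
      change (∑ i, M j i * (w i : ℤ)).toNat = m
      rw [← h3]
      exact Int.toNat_natCast m
    rw [h6]
    exact h4
  have hφX : ∀ w ∈ D, φ w ∈ GSol A N χ s h' S := by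
    intro w hw
    refine ⟨⟨fun j => ⟨(hφcast w hw j).2.1, (hφcast w hw j).2.2.1⟩, fun t => ?_⟩, hφmono w hw,
      fun j => (hφcast w hw j).2.2.2⟩
    have h1 : ∑ j, A t j * ((φ w j : ℕ) : ℤ) = ∑ i, (∑ j, A t j * M j i) * (w i : ℤ) := by
      simp only [(hφcast w hw _).1, mul_sum, sum_mul]
      rw [sum_comm]
      exact sum_congr rfl fun i _ => sum_congr rfl fun j _ => by ring
    rw [h1]
    exact sum_eq_zero fun i _ => by rw [hMA, zero_mul]
  have hXf : (GSol A N χ s h' S).Finite := (Sol_finite A N).subset fun x hx => hx.1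
  have hcardD : D.ncard ≤ (GSol A N χ s h' S).ncard * N ^ k := by
    have h1 : D.ncard ≤ ((GSol A N χ s h' S) ×ˢ
        ((Fintype.piFinset (fun _ : Fin k => Icc 1 N) : Finset (Fin k → ℕ)) : Set (Fin k → ℕ))).ncard := by
      refine Set.ncard_le_ncard_of_injOn (fun w => (φ w, fun i => w (Fin.natAdd d i))) ?_ ?_
        (hXf.prod (Finset.finite_toSet _))
      · intro w hw
        refine ⟨hφX w hw, ?_⟩
        rw [mem_coe, Fintype.mem_piFinset]
        intro i
        rw [hD] at hw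
        rw [mem_Icc]
        exact hw.1 _
      · intro w hw w' hw' hww
        have e1 : φ w = φ w' := congrArg Prod.fst hww
        have e2 : ∀ i, w (Fin.natAdd d i) = w' (Fin.natAdd d i) := congrFun (congrArg Prod.snd hww)
        funext i
        refine Fin.addCases (fun t => ?_) (fun i' => e2 i') i
        have e3 := (hφcast w hw (τ t)).1
        have e4 := (hφcast w' hw' (τ t)).1
        rw [e1, e4, Fin.sum_univ_add, Fin.sum_univ_add] at e3
        simp only [hM1, hM2, e2] at e3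
        have e5 : ∀ w : Fin (d + k) → ℕ, ∑ i : Fin d, z i (τ t) * ((w (Fin.castAdd k i) : ℕ) : ℤ) =
            z t (τ t) * ((w (Fin.castAdd k t) : ℕ) : ℤ) := by
          intro w
          rw [sum_eq_single t]
          · intro t' _ ht'
            rw [hz3 t' t ht', zero_mul]
          · intro h7
            exact absurd (mem_univ _) h7
        rw [e5 w, e5 w'] at e3
        have e6 : z t (τ t) * ((w' (Fin.castAdd k t) : ℕ) : ℤ) = z t (τ t) * ((w (Fin.castAdd k t) : ℕ) : ℤ) := by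
          linarith
        have e7 := mul_left_cancel₀ (hz2 t) e6
        exact_mod_cast e7.symm
    rw [Set.ncard_prod, Set.ncard_coe_finset, Fintype.card_piFinset] at h1
    simpa using h1
  have hSol : (Sol A N).ncard ≤ N ^ d := by
    have h1 : (Sol A N).ncard ≤
        ((Fintype.piFinset (fun _ : Fin d => Icc 1 N) : Finset (Fin d → ℕ)) : Set (Fin d → ℕ)).ncard := by
      refine Set.ncard_le_ncard_of_injOn (fun x t => x (τ t)) ?_ ?_ (Finset.finite_toSet _)
      · intro x hx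
        rw [mem_coe, Fintype.mem_piFinset]
        intro t
        rw [mem_Icc]
        exact hx.1 _
      · intro x hx y hy hxy
        have h2 := hz4 (fun j => (x j : ℤ) - y j) (fun t => by
          simp only [mul_sub]
          rw [sum_sub_distrib, hx.2 t, hy.2 t, sub_self]) (fun t => by
          have := congrFun hxy t
          change x (τ t) = y (τ t) at this
          change (x (τ t) : ℤ) - y (τ t) = 0
          rw [this, sub_self])
        funext j
        have h3 := congrFun h2 j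
        change (x j : ℤ) - y j = 0 at h3
        have h4 : (x j : ℤ) = y j := by linarith
        exact_mod_cast h4
    rw [Set.ncard_coe_finset, Fintype.card_piFinset] at h1
    simpa using h1
  have hNpos : (0 : ℝ) < N := by exact_mod_cast (by omega : 0 < N)
  have h8 : κ * (N : ℝ) ^ (d + k) ≤ ((GSol A N χ s h' S).ncard : ℝ) * (N : ℝ) ^ k := by
    refine hmain.trans ?_
    exact_mod_cast hcardD
  rw [pow_add, ← mul_assoc] at h8
  have h9 : κ * (N : ℝ) ^ d ≤ ((GSol A N χ s h' S).ncard : ℝ) :=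
    le_of_mul_le_mul_right h8 (by positivity)
  have h10 : 0 < κ * (N : ℝ) ^ d := by positivity
  refine ⟨by exact_mod_cast h10.trans_le h9, le_trans ?_ h9⟩
  apply mul_le_mul_of_nonneg_left _ hκ.le
  exact_mod_cast hSol

end Pool.Agent.V11270.CZ
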