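import Mathlib
import Pool.Agent.V11270.CZ.Forms
import Pool.Agent.TH709.RGap.Dens

set_option autoImplicit false

/-!
# Sets which meet all sets of sums, in shifted Collatz-invariant sets

The sets of sums in a shifted invariant set are a positive proportion of all sets of sums
(`forms_in`); so every set which meets all sets of sums of `r` numbers contains a positive proportion
of the elements of the shifted invariant set. By the density Hales-Jewett theorem this applies to the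
ratios of the homothetic copies of a finite configuration in a set of positive upper density
(`Pool.Agent.TH709.RGap.ipr`).
-/

namespace Pool.Agent.V11270.CZ

open Finset Filter Topology
open Pool.Agent.Results.MP_2d22f3_nt.GowersNorms (Invariant HasDensity Points)
open Pool.Agent.TH709.RGap (Dense ipr)

/-- the nonempty subsets -/
abbrev NE (r : ℕ) : Type := {I : Finset (Fin r) // I.Nonempty}

/-- their number -/
noncomputable def nq (r : ℕ) : ℕ := Fintype.card (NE r)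

/-- their enumeration -/
noncomputable def en (r : ℕ) : Fin (nq r) ≃ NE r := (Fintype.equivFin (NE r)).symm

/-- the sums over the nonempty subsets as linear forms -/
noncomputable def sums (r : ℕ) : Fin (nq r) → Fin r → ℤ := fun k j => if j ∈ (en r k).1 then 1 else 0

theorem sums_apply (r : ℕ) (k : Fin (nq r)) (x : Fin r → ℤ) :
    ∑ j, sums r k j * x j = ∑ j ∈ (en r k).1, x j := by
  unfold sums
  simp only [ite_mul, one_mul, zero_mul]
  rw [sum_ite_mem, univ_inter]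

theorem sums_ne (r : ℕ) (k : Fin (nq r)) : sums r k ≠ 0 := by
  obtain ⟨j, hj⟩ := (en r k).2
  intro h
  have h1 := congrFun h j
  unfold sums at h1
  rw [if_pos hj] at h1
  exact one_ne_zero h1

theorem sums_indep (r : ℕ) (i j : Fin (nq r)) (hij : i ≠ j) (a b : ℤ)
    (h : a • sums r i = b • sums r j) : a = 0 ∧ b = 0 := by
  have hne : (en r i).1 ≠ (en r j).1 := fun h1 => hij ((en r).injective (Subtype.ext h1))
  have hval : ∀ l, a * (if l ∈ (en r i).1 then 1 else 0) = b * (if l ∈ (en r j).1 then 1 else 0) := by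
    intro l
    have := congrFun h l
    simpa only [Pi.smul_apply, smul_eq_mul, sums] using this
  have ha : a = 0 → b = 0 := by
    intro h0
    obtain ⟨l, hl⟩ := (en r j).2
    have := hval l
    rw [if_pos hl, h0, zero_mul, mul_one] at this
    exact this.symm
  have hb : b = 0 → a = 0 := by
    intro h0
    obtain ⟨l, hl⟩ := (en r i).2
    have := hval l
    rw [if_pos hl, h0, zero_mul, mul_one] at this
    exact this
  by_cases h1 : (en r i).1 ⊆ (en r j).1
  · have h2 : ¬ (en r j).1 ⊆ (en r i).1 := fun h2 => hne (Subset.antisymm h1 h2)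
    obtain ⟨l, hl, hl'⟩ := not_subset.1 h2
    have h3 := hval l
    rw [if_pos hl, if_neg hl', mul_zero, mul_one] at h3
    exact ⟨hb h3.symm, h3.symm⟩
  · obtain ⟨l, hl, hl'⟩ := not_subset.1 h1
    have h3 := hval l
    rw [if_pos hl, if_neg hl', mul_zero, mul_one] at h3
    exact ⟨h3, ha h3⟩

/-- the points of a box with a given sum over a nonempty subset -/
theorem fibre_card {r : ℕ} (v : Fin r → ℤ) (A u : ℕ) (I : Finset (Fin r)) (hI : I.Nonempty) (m : ℤ) :
    {x : Fin r → ℤ | x ∈ Box v A u ∧ ∑ i ∈ I, x i = m}.ncard ≤ u ^ (r - 1) := by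
  classical
  obtain ⟨i₀, hi₀⟩ := hI
  have hr : 0 < r := Fin.pos i₀
  set T : Finset ({j : Fin r // j ≠ i₀} → ℤ) := Fintype.piFinset
    (fun j => Finset.Ioc (2 * A * u * v j.1) (2 * A * u * v j.1 + u)) with hT
  have hTc : T.card = u ^ (r - 1) := by
    rw [hT, Fintype.card_piFinset]
    simp only [Int.card_Ioc, add_sub_cancel_left, Int.toNat_natCast, prod_const, card_univ]
    congr 1
    rw [Fintype.card_subtype_compl, Fintype.card_fin, Fintype.card_subtype_eq]
  rw [← hTc, ← Set.ncard_coe_finset]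
  refine Set.ncard_le_ncard_of_injOn (fun x j => x j.1) ?_ ?_ (Finset.finite_toSet _)
  · rintro x ⟨hx, -⟩
    rw [mem_coe, hT, Fintype.mem_piFinset]
    intro j
    rw [mem_Ioc]
    exact hx j.1
  · rintro x ⟨-, hx⟩ y ⟨-, hy⟩ hxy
    have hoff : ∀ j, j ≠ i₀ → x j = y j := fun j hj => congrFun hxy ⟨j, hj⟩
    funext j
    by_cases hj : j = i₀
    · subst hj
      have h1 : ∑ i ∈ I.erase j, x i = ∑ i ∈ I.erase j, y i :=
        sum_congr rfl fun i hi => hoff i (ne_of_mem_erase hi)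
      have h2 := add_sum_erase I x hi₀
      have h3 := add_sum_erase I y hi₀
      linarith
    · exact hoff j hj

/-- `G` meets every set of sums of `r` positive integers. -/
def IPStar (r : ℕ) (G : Set ℕ) : Prop :=
  ∀ x : Fin r → ℕ, (∀ i, 1 ≤ x i) → ∃ I : Finset (Fin r), I.Nonempty ∧ ∑ i ∈ I, x i ∈ G

/-- The elements `m ≤ N` of `G` with `s m + h ∈ S`. -/
def Common (s : ℤ) (S : Set ℤ) (h : ℤ) (N : ℕ) (G : Set ℕ) : Set ℕ :=
  {m : ℕ | 1 ≤ m ∧ m ≤ N ∧ s * m + h ∈ S ∧ m ∈ G}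

theorem common_finite (s : ℤ) (S : Set ℤ) (h : ℤ) (N : ℕ) (G : Set ℕ) :
    (Common s S h N G).Finite :=
  (Set.finite_Iic N).subset fun _ hm => hm.2.1

/-- **Sets which meet all sets of sums, in shifted invariant sets.** -/
theorem ipstar (r : ℕ) (β : ℝ) (hβ : 0 < β) : ∃ κ : ℝ, 0 < κ ∧
    ∃ N₀ : ℕ, ∀ s : ℤ, (s = 1 ∨ s = -1) → ∀ S : Set ℤ, Invariant S →
      ∀ ρ : ℝ, HasDensity s S ρ → β ≤ ρ → ∀ N : ℕ, N₀ ≤ N → ∀ h : ℤ, |(h : ℝ)| ≤ κ * N →
      ∀ G : Set ℕ, IPStar r G → κ * N ≤ ((Common s S h N G).ncard : ℝ) := by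
  classical
  set Λ := sums r with hΛ
  set v : Fin r → ℤ := fun _ => 1 with hv
  have hvpos : ∀ i, 0 < ∑ j, Λ i j * v j := by
    intro i
    rw [hΛ, sums_apply, hv, sum_const, nsmul_eq_mul, mul_one]
    exact_mod_cast card_pos.2 (en r i).2
  obtain ⟨u₁, hu₁⟩ := forms_in Λ (sums_ne r) (sums_indep r) v hvpos (Or.inl rfl : (1 : ℤ) = 1 ∨ _) hβ
  obtain ⟨u₂, hu₂⟩ := forms_in Λ (sums_ne r) (sums_indep r) v hvpos (Or.inr rfl : (-1 : ℤ) = 1 ∨ _) hβ
  obtain ⟨K, hK⟩ : ∃ K : ℕ, K = KK Λ v := ⟨_, rfl⟩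
  have hK1 : 1 ≤ K := by rw [hK]; unfold KK; omega
  have hKR : (1 : ℝ) ≤ K := by exact_mod_cast hK1
  set κ : ℝ := min (1 / (2 * K)) (β ^ nq r / (2 ^ (r + 2) * K)) with hκ
  have hκ0 : 0 < κ := lt_min (by positivity) (by positivity)
  refine ⟨κ, hκ0, 2 * K * (u₁ + u₂ + 1), fun s hs S hS ρ hρ hβρ N hN h hh G hG => ?_⟩
  obtain ⟨u, hu⟩ : ∃ u : ℕ, u = N / K := ⟨_, rfl⟩
  have huN : K * u ≤ N := by rw [hu]; exact Nat.mul_div_le N K
  have huN2 : N < K * (u + 1) := by
    rw [hu]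
    exact Nat.lt_mul_div_succ N hK1
  have hubig : 2 * (u₁ + u₂ + 1) ≤ u := by
    rw [hu, Nat.le_div_iff_mul_le hK1]
    calc 2 * (u₁ + u₂ + 1) * K = 2 * K * (u₁ + u₂ + 1) := by ring
      _ ≤ N := hN
  have hu1 : 1 ≤ u := by omega
  have huR : (1 : ℝ) ≤ u := by exact_mod_cast hu1
  have hNu : (N : ℝ) ≤ 2 * K * u := by
    have h1 : N ≤ 2 * K * u := by
      have h2 : K * (u + 1) ≤ K * (2 * u) := Nat.mul_le_mul_left _ (by omega)
      calc N ≤ K * (u + 1) := huN2.le
        _ ≤ K * (2 * u) := h2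
        _ = 2 * K * u := by ring
    exact_mod_cast h1
  have hhu : |h| ≤ (u : ℤ) := by
    have h1 : |(h : ℝ)| ≤ u := by
      refine hh.trans ?_
      calc κ * N ≤ 1 / (2 * K) * (2 * K * u) := mul_le_mul (min_le_left _ _) hNu (by positivity) (by positivity)
        _ = u := by field_simp
    exact_mod_cast h1
  -- the good points
  set P : Set (Fin r → ℤ) := {x : Fin r → ℤ | x ∈ Box v (AA Λ) u ∧
    ∀ i, s * (∑ j, Λ i j * x j) + h ∈ S} with hP
  have hPcard : β ^ nq r / 2 * (u : ℝ) ^ r ≤ (P.ncard : ℝ) := by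
    rcases hs with rfl | rfl
    · exact hu₁ (fun _ => S) (fun _ => ρ) (fun _ => hS) (fun _ => hρ) (fun _ => hβρ) u (by omega)
        (fun _ => h) (fun _ => hhu)
    · exact hu₂ (fun _ => S) (fun _ => ρ) (fun _ => hS) (fun _ => hρ) (fun _ => hβρ) u (by omega)
        (fun _ => h) (fun _ => hhu)
  have hDf := common_finite s S h N G
  -- every good point has a good sum
  have hex : ∀ x ∈ P, ∃ I : Finset (Fin r), I.Nonempty ∧ ∃ m ∈ Common s S h N G,
      ∑ i ∈ I, x i = m := by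
    rintro x ⟨hx, hxS⟩
    have hx1 : ∀ i, 1 ≤ x i := by
      intro i
      have h1 := (hx i).1
      have h2 : (0 : ℤ) ≤ 2 * (AA Λ) * u * v i := by
        rw [hv]
        positivity
      linarith
    obtain ⟨I, hI, hD⟩ := hG (fun i => (x i).toNat) (fun i => by
      have := hx1 i
      omega)
    have hcast : ∑ i ∈ I, x i = ((∑ i ∈ I, (x i).toNat : ℕ) : ℤ) := by
      push_cast
      refine sum_congr rfl fun i _ => ?_
      have := hx1 i
      omega
    obtain ⟨k, hk⟩ : ∃ k, en r k = ⟨I, hI⟩ := (en r).surjective _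
    have hsum : ∑ j, Λ k j * x j = ∑ i ∈ I, x i := by
      rw [hΛ, sums_apply, hk]
    have hb := form_bounds Λ v hvpos u x hx k
    rw [hsum] at hb
    have hpos : 0 < ∑ i ∈ I, x i := by
      have : (1 : ℤ) ≤ u := by exact_mod_cast hu1
      linarith [hb.1]
    refine ⟨I, hI, ∑ i ∈ I, (x i).toNat, ⟨?_, ?_, ?_, hD⟩, hcast⟩
    · rw [hcast] at hpos
      exact_mod_cast hpos
    · have h1 : ((∑ i ∈ I, (x i).toNat : ℕ) : ℤ) ≤ N := by
        rw [← hcast]
        have h2 : ((K * u : ℕ) : ℤ) ≤ N := by exact_mod_cast huN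
        rw [← hK] at hb
        push_cast at h2
        linarith [hb.2, Int.natCast_nonneg (n := u)]
      exact_mod_cast h1
    · have := hxS k
      rw [hsum, hcast] at this
      exact this
  -- the case without coordinates
  rcases Nat.eq_zero_or_pos r with hr | hr
  · exfalso
    subst hr
    obtain ⟨I, ⟨i, hi⟩, -⟩ := hG (fun _ => 1) (fun _ => le_rfl)
    exact i.elim0
  -- counting
  set Df := hDf.toFinset with hDfdef
  have hcover : P ⊆ ⋃ p ∈ (Df ×ˢ (univ : Finset (NE r))),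
      {x : Fin r → ℤ | x ∈ Box v (AA Λ) u ∧ ∑ i ∈ p.2.1, x i = (p.1 : ℤ)} := by
    intro x hx
    obtain ⟨I, hI, m, hm, hsum⟩ := hex x hx
    rw [Set.mem_iUnion₂]
    refine ⟨(m, ⟨I, hI⟩), ?_, hx.1, hsum⟩
    rw [mem_product]
    exact ⟨by rw [hDfdef, Set.Finite.mem_toFinset]; exact hm, mem_univ _⟩
  have hcard : (P.ncard : ℝ) ≤ (Df.card : ℝ) * 2 ^ r * (u : ℝ) ^ (r - 1) := by
    have h1 : P.ncard ≤ (⋃ p ∈ (Df ×ˢ (univ : Finset (NE r))),
        {x : Fin r → ℤ | x ∈ Box v (AA Λ) u ∧ ∑ i ∈ p.2.1, x i = (p.1 : ℤ)}).ncard := by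
      refine Set.ncard_le_ncard hcover ?_
      refine Set.Finite.biUnion (Finset.finite_toSet _) fun p _ => ?_
      exact (box_finite v (AA Λ) u).subset fun x hx => hx.1
    have h2 := Finset.set_ncard_biUnion_le (Df ×ˢ (univ : Finset (NE r)))
      (fun p => {x : Fin r → ℤ | x ∈ Box v (AA Λ) u ∧ ∑ i ∈ p.2.1, x i = (p.1 : ℤ)})
    have h3 : ∑ p ∈ (Df ×ˢ (univ : Finset (NE r))),
        {x : Fin r → ℤ | x ∈ Box v (AA Λ) u ∧ ∑ i ∈ p.2.1, x i = (p.1 : ℤ)}.ncard ≤
        ∑ _p ∈ (Df ×ˢ (univ : Finset (NE r))), u ^ (r - 1) :=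
      sum_le_sum fun p _ => fibre_card v (AA Λ) u p.2.1 p.2.2 p.1
    rw [sum_const, card_product, card_univ, smul_eq_mul] at h3
    have h4 : Fintype.card (NE r) ≤ 2 ^ r := by
      calc Fintype.card (NE r) ≤ Fintype.card (Finset (Fin r)) := Fintype.card_subtype_le _
        _ = 2 ^ r := by rw [Fintype.card_finset, Fintype.card_fin]
    have h5 : Df.card * Fintype.card (NE r) * u ^ (r - 1) ≤ Df.card * 2 ^ r * u ^ (r - 1) :=
      Nat.mul_le_mul_right _ (Nat.mul_le_mul_left _ h4)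
    have h6 := ((h1.trans h2).trans h3).trans h5
    exact_mod_cast h6
  have hDc : (Common s S h N G).ncard = Df.card := by
    rw [hDfdef, Set.ncard_eq_toFinset_card _ hDf]
  rw [hDc]
  have h7 : β ^ nq r / 2 * (u : ℝ) ^ r ≤ (Df.card : ℝ) * 2 ^ r * (u : ℝ) ^ (r - 1) :=
    hPcard.trans hcard
  have h8 : (u : ℝ) ^ r = u * (u : ℝ) ^ (r - 1) := by
    rw [← pow_succ']
    congr 1
    omega
  rw [h8] at h7
  have h9 : β ^ nq r / 2 * u ≤ (Df.card : ℝ) * 2 ^ r := by
    have h10 : (0 : ℝ) < (u : ℝ) ^ (r - 1) := by positivity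
    have h11 : (β ^ nq r / 2 * u) * (u : ℝ) ^ (r - 1) ≤ ((Df.card : ℝ) * 2 ^ r) * (u : ℝ) ^ (r - 1) := by
      linarith
    exact le_of_mul_le_mul_right h11 h10
  calc κ * N ≤ β ^ nq r / (2 ^ (r + 2) * K) * (2 * K * u) :=
        mul_le_mul (min_le_right _ _) hNu (by positivity) (by positivity)
    _ = (β ^ nq r / 2 * u) / 2 ^ r := by
        rw [pow_add]
        field_simp
    _ ≤ ((Df.card : ℝ) * 2 ^ r) / 2 ^ r := div_le_div_of_nonneg_right h9 (by positivity)
    _ = Df.card := by field_simp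

/-- The ratios of homothetic copies in a dense set meet all sets of sums. -/
theorem dense_ipstar (l : ℕ) (δ : ℝ) (hδ : 0 < δ) : ∃ (r : ℕ) (η : ℝ), 0 < η ∧
    ∀ (e : ℕ) (A : Set (Fin e → ℤ)), Dense A δ → ∀ F : Fin (l + 1) → Fin e → ℤ,
      IPStar r {m : ℕ | Dense {a : Fin e → ℤ | ∀ t, a + (m : ℤ) • F t ∈ A} η} := by
  obtain ⟨r, η, hη, h⟩ := ipr l δ hδ
  refine ⟨r, η, hη, fun e A hA F x _ => ?_⟩
  obtain ⟨I, hI, hD⟩ := h e A hA F (fun i => (x i : ℤ))
  refine ⟨I, hI, ?_⟩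
  change Dense _ η
  push_cast
  exact hD

end Pool.Agent.V11270.CZ
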