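import Mathlib
import Pool.Agent.V11270.CZ.Szem

set_option autoImplicit false

/-!
# Multiple recurrence for commuting transformations and sets of sums

From the density Hales-Jewett theorem `Pool.Agent.H602R3.DHJ.dhj`: the times of multiple recurrence
of a measure preserving action of a commutative monoid meet all sets of sums.
-/

namespace Pool.Agent.V11270.CZ

open Finset Filter Topology MeasureTheory
open Pool.Agent.H602R3.DHJ

/-- sums along a line -/
theorem sum_line {M : Type} [AddCommMonoid M] {k N : ℕ} (V : Fin N → Fin (k + 1) ⊕ Unit)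
    (h : Fin N → ℕ) (F : Fin (k + 1) → M) :
    ∃ s : M, ∀ a, ∑ i, h i • F (ap V (fun _ => a) i) =
      (∑ i ∈ univ.filter (fun i => V i = Sum.inr ()), h i) • F a + s := by
  classical
  refine ⟨∑ i ∈ univ.filter (fun i => ¬ V i = Sum.inr ()), h i • F (ap V (fun _ => 0) i), fun a => ?_⟩
  rw [← sum_filter_add_sum_filter_not univ (fun i => V i = Sum.inr ()), sum_smul]
  congr 1
  · refine sum_congr rfl fun i hi => ?_
    have h := (mem_filter.1 hi).2
    congr 2
    unfold ap
    rw [h]
    rfl
  · refine sum_congr rfl fun i hi => ?_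
    have h := (mem_filter.1 hi).2
    congr 2
    unfold ap
    rcases hV : V i with b | u
    · rfl
    · exact absurd (by rw [hV]) h

/-- **The times of multiple recurrence meet all sets of sums.** -/
theorem meas_ipstar (l : ℕ) (δ : ℝ) (hδ : 0 < δ) : ∃ (r : ℕ) (η : ℝ), 0 < η ∧
    ∀ (M : Type) [AddCommMonoid M] (X : Type) [MeasurableSpace X] (μ : Measure X)
      [IsProbabilityMeasure μ] (act : M → X → X), (∀ a, MeasurePreserving (act a) μ μ) →
      (∀ a b x, act (a + b) x = act a (act b x)) → ∀ A : Set X, MeasurableSet A → δ ≤ μ.real A →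
      ∀ F : Fin (l + 1) → M, IPStar r {m : ℕ | η ≤ μ.real {x | ∀ t, act (m • F t) x ∈ A}} := by
  classical
  obtain ⟨r, hr⟩ := dhj l (δ / 2) (by positivity)
  obtain ⟨T, hT⟩ : ∃ T : ℕ, T = Fintype.card (Fin r → Fin (l + 1) ⊕ Unit) := ⟨_, rfl⟩
  have hT0 : 0 < T := by
    rw [hT]
    exact Fintype.card_pos
  have hT0' : (0 : ℝ) < T := by exact_mod_cast hT0
  refine ⟨r, δ / (2 * T), by positivity, ?_⟩
  intro M _ X _ μ _ act hact hadd A hA hμA F h _
  have hδ1 : δ ≤ 1 := hμA.trans measureReal_le_one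
  obtain ⟨v, hv⟩ : ∃ v : (Fin r → Fin (l + 1)) → M, v = fun u => ∑ i, h i • F (u i) := ⟨_, rfl⟩
  -- the words of a point
  obtain ⟨W, hW⟩ : ∃ W : X → Set (Fin r → Fin (l + 1)), W = fun x => {u | act (v u) x ∈ A} :=
    ⟨_, rfl⟩
  obtain ⟨n, hn⟩ : ∃ n : ℝ, n = Fintype.card (Fin r → Fin (l + 1)) := ⟨_, rfl⟩
  have hn0 : 0 < n := by
    rw [hn]
    exact_mod_cast Fintype.card_pos
  have hE : ∀ u, MeasurableSet (act (v u) ⁻¹' A) := fun u => (hact _).measurable hA
  have hdn : ∀ x, dn (W x) = (∑ u, (act (v u) ⁻¹' A).indicator (fun _ => (1 : ℝ)) x) / n := by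
    intro x
    unfold dn av
    rw [hn]
    congr 1
    refine sum_congr rfl fun u _ => ?_
    rw [Set.indicator_apply, Set.indicator_apply]
    rw [hW]
    rfl
  have hdn1 : ∀ x, dn (W x) ≤ 1 := by
    intro x
    rw [hdn, div_le_one hn0, hn]
    calc ∑ u, (act (v u) ⁻¹' A).indicator (fun _ => (1 : ℝ)) x
        ≤ ∑ _u : Fin r → Fin (l + 1), (1 : ℝ) := sum_le_sum fun u _ => by
          rw [Set.indicator_apply]
          split_ifs <;> norm_num
      _ = _ := by rw [sum_const, card_univ, nsmul_eq_mul, mul_one]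
  have hint : ∀ u, Integrable ((act (v u) ⁻¹' A).indicator (fun _ => (1 : ℝ))) μ := fun u =>
    (integrable_const 1).indicator (hE u)
  have hmeas : Measurable (fun x => dn (W x)) := by
    simp_rw [hdn]
    refine Measurable.div_const ?_ n
    exact Finset.measurable_fun_sum _ fun u _ => measurable_const.indicator (hE u)
  have hInt : Integrable (fun x => dn (W x)) μ := by
    simp_rw [hdn]
    exact (integrable_finsetSum _ fun u _ => hint u).div_const n
  have hmean : δ ≤ ∫ x, dn (W x) ∂μ := by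
    simp_rw [hdn]
    rw [integral_div, integral_finsetSum _ fun u _ => hint u]
    have h1 : ∀ u, ∫ x, (act (v u) ⁻¹' A).indicator (fun _ => (1 : ℝ)) x ∂μ = μ.real A := by
      intro u
      rw [integral_indicator_const _ (hE u), smul_eq_mul, mul_one, measureReal_def, measureReal_def,
        (hact (v u)).measure_preimage hA.nullMeasurableSet]
    simp_rw [h1]
    rw [sum_const, card_univ, nsmul_eq_mul, ← hn, mul_div_cancel_left₀ _ hn0.ne']
    exact hμA
  -- the points with many words
  set G : Set X := {x | δ / 2 ≤ dn (W x)} with hG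
  have hGm : MeasurableSet G := measurableSet_le measurable_const hmeas
  have hGμ : δ / 2 ≤ μ.real G := by
    have h1 : ∫ x, dn (W x) ∂μ ≤ ∫ x, (G.indicator (fun _ => (1 : ℝ)) x + δ / 2) ∂μ := by
      refine integral_mono hInt (((integrable_const 1).indicator hGm).add (integrable_const _)) ?_
      intro x
      change dn (W x) ≤ G.indicator (fun _ => (1 : ℝ)) x + δ / 2
      rw [Set.indicator_apply]
      split_ifs with h0
      · have := hdn1 x
        linarith
      · have h2 : ¬ δ / 2 ≤ dn (W x) := h0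
        push Not at h2
        linarith
    rw [integral_add ((integrable_const 1).indicator hGm) (integrable_const _),
      integral_indicator_const _ hGm, smul_eq_mul, mul_one, integral_const, probReal_univ,
      smul_eq_mul, one_mul] at h1
    linarith
  -- the lines
  have hline : ∀ x ∈ G, ∃ V : Fin r → Fin (l + 1) ⊕ Unit, Pr V ∧ ∀ t, ap V (fun _ => t) ∈ W x := by
    intro x hx
    by_contra hcon
    have h1 : LFr (W x) := by
      unfold LFr
      intro V hV
      by_contra h2
      push Not at h2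
      exact hcon ⟨V, hV, fun t => h2 t⟩
    have h2 := hr (W x) h1
    have h3 : δ / 2 ≤ dn (W x) := hx
    linarith
  have hcov : G ⊆ ⋃ V ∈ (univ.filter (fun V : Fin r → Fin (l + 1) ⊕ Unit => Pr V)),
      {x | ∀ t, act (v (ap V (fun _ => t))) x ∈ A} := by
    intro x hx
    obtain ⟨V, hV, h1⟩ := hline x hx
    rw [Set.mem_iUnion₂]
    refine ⟨V, mem_filter.2 ⟨mem_univ _, hV⟩, fun t => ?_⟩
    have := h1 t
    rw [hW] at this
    exact this
  have hsum : δ / 2 ≤ ∑ V ∈ (univ.filter (fun V : Fin r → Fin (l + 1) ⊕ Unit => Pr V)),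
      μ.real {x | ∀ t, act (v (ap V (fun _ => t))) x ∈ A} := by
    refine hGμ.trans ((measureReal_mono hcov (measure_ne_top _ _)).trans ?_)
    exact measureReal_biUnion_finset_le _ _
  obtain ⟨V, hV, hVμ⟩ : ∃ V ∈ (univ.filter (fun V : Fin r → Fin (l + 1) ⊕ Unit => Pr V)),
      δ / (2 * T) ≤ μ.real {x | ∀ t, act (v (ap V (fun _ => t))) x ∈ A} := by
    by_contra hcon
    push Not at hcon
    rcases (univ.filter (fun V : Fin r → Fin (l + 1) ⊕ Unit => Pr V)).eq_empty_or_nonempty with h0 | h0
    · rw [h0, sum_empty] at hsum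
      linarith
    · have h1 := sum_lt_sum_of_nonempty h0 hcon
      rw [sum_const, nsmul_eq_mul] at h1
      have h2 : ((univ.filter (fun V : Fin r → Fin (l + 1) ⊕ Unit => Pr V)).card : ℝ) ≤ T := by
        rw [hT]
        exact_mod_cast card_le_univ _
      have h3 : ((univ.filter (fun V : Fin r → Fin (l + 1) ⊕ Unit => Pr V)).card : ℝ) * (δ / (2 * T)) ≤
          T * (δ / (2 * T)) := mul_le_mul_of_nonneg_right h2 (by positivity)
      have h4 : (T : ℝ) * (δ / (2 * T)) = δ / 2 := by field_simp
      linarith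
  have hPr : Pr V := (mem_filter.1 hV).2
  obtain ⟨i₀, hi₀⟩ := hPr ()
  refine ⟨univ.filter (fun i => V i = Sum.inr ()), ⟨i₀, mem_filter.2 ⟨mem_univ _, hi₀⟩⟩, ?_⟩
  obtain ⟨s, hs⟩ := sum_line V h F
  change δ / (2 * T) ≤ μ.real {x | ∀ t, act ((∑ i ∈ univ.filter (fun i => V i = Sum.inr ()), h i) • F t) x ∈ A}
  obtain ⟨m, hm⟩ : ∃ m : ℕ, m = ∑ i ∈ univ.filter (fun i => V i = Sum.inr ()), h i := ⟨_, rfl⟩
  rw [← hm] at hs ⊢
  refine hVμ.trans (le_of_eq ?_)
  have hset : {x | ∀ t, act (v (ap V (fun _ => t))) x ∈ A} =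
      act s ⁻¹' {x | ∀ t, act (m • F t) x ∈ A} := by
    ext x
    simp only [Set.mem_ofPred_eq, Set.mem_preimage]
    refine forall_congr' fun t => ?_
    have h1 : v (ap V (fun _ => t)) = m • F t + s := by
      rw [hv]
      exact hs t
    rw [h1, hadd]
  have hms : MeasurableSet {x | ∀ t, act (m • F t) x ∈ A} := by
    have h1 : {x | ∀ t, act (m • F t) x ∈ A} = ⋂ t, act (m • F t) ⁻¹' A := by
      ext x
      simp
    rw [h1]
    exact MeasurableSet.iInter fun t => (hact _).measurable hA
  rw [hset, measureReal_def, measureReal_def, (hact s).measure_preimage hms.nullMeasurableSet]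

end Pool.Agent.V11270.CZ
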