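import Mathlib
import Pool.Agent.V11270.CZ.War
import Pool.Agent.V11270.CZ.Forms
import Pool.Agent.W851.Had.Schn

set_option autoImplicit false

/-!
# Waring's problem with variables in Collatz-invariant sets
-/

namespace Pool.Agent.V11270.CZ.War

open Finset
open Pool.Agent.Y834.CD (en)
open Pool.Agent.W851.Had (cnt SumH SumH_add SumH_zero cnt_mono schn cnt_le)
open Pool.Agent.Results.MP_2d22f3_nt.GowersNorms (Invariant HasDensity)

/-- `k`-th powers of elements -/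
def Pw (k : ℕ) (E : ℕ → Prop) (m : ℕ) : Prop := ∃ x, E x ∧ x ^ k = m

/-- elements of sign `s` -/
def El (s : ℤ) (S : Set ℤ) (x : ℕ) : Prop := 1 ≤ x ∧ s * (x : ℤ) ∈ S

theorem SumH_mono {A B : ℕ → Prop} (h : ∀ n, A n → B n) (r n : ℕ) (hn : SumH A r n) : SumH B r n := by
  obtain ⟨l, h1, h2, h3⟩ := hn
  exact ⟨l, h1, fun y hy => h y (h2 y hy), h3⟩

theorem SumH_rep {A : ℕ → Prop} {a : ℕ} (ha : A a) (r : ℕ) : SumH A r (r * a) :=
  ⟨List.replicate r a, by simp, fun y hy => by rw [List.eq_of_mem_replicate hy]; exact ha, by simp⟩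

/-- many sums of `t` powers -/
theorem many_sums (k t X : ℕ) (ht : 1 ≤ t) (E : ℕ → Prop) [DecidablePred E] :
    ((Icc 1 X).filter E).card ^ (2 * t) ≤ cnt (SumH (Pw k E) t) (t * X ^ k) *
      en t (vals (Polynomial.X ^ k) X) := by
  classical
  obtain ⟨Tup, hTup⟩ : ∃ Tup : Finset (Fin t → Fin X), Tup =
    Fintype.piFinset (fun _ => univ.filter (fun m : Fin X => E ((m : ℕ) + 1))) := ⟨_, rfl⟩
  have hYc : (univ.filter (fun m : Fin X => E ((m : ℕ) + 1))).card = ((Icc 1 X).filter E).card := by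
    apply card_bij (fun (m : Fin X) _ => (m : ℕ) + 1)
    · intro m hm
      rw [mem_filter, mem_Icc]
      exact ⟨⟨Nat.le_add_left 1 _, m.2⟩, (mem_filter.1 hm).2⟩
    · intro a _ b _ h
      exact Fin.ext (by omega)
    · intro x hx
      rw [mem_filter, mem_Icc] at hx
      refine ⟨⟨x - 1, by omega⟩, ?_, ?_⟩
      · rw [mem_filter]
        refine ⟨mem_univ _, ?_⟩
        change E (x - 1 + 1)
        rw [Nat.sub_add_cancel hx.1.1]
        exact hx.2
      · exact Nat.sub_add_cancel hx.1.1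
  have hTc : Tup.card = ((Icc 1 X).filter E).card ^ t := by
    rw [hTup, Fintype.card_piFinset, prod_const, card_univ, Fintype.card_fin, hYc]
  obtain ⟨f, hf⟩ : ∃ f : (Fin t → Fin X) → ℕ, f = fun p => ∑ i, ((p i : ℕ) + 1) ^ k := ⟨_, rfl⟩
  have h1 : Tup.card = ∑ v ∈ Tup.image f, (Tup.filter (fun p => f p = v)).card :=
    card_eq_sum_card_image f Tup
  have h2 : ((Tup ×ˢ Tup).filter (fun z => f z.1 = f z.2)).card =
      ∑ v ∈ Tup.image f, (Tup.filter (fun p => f p = v)).card ^ 2 := by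
    rw [card_eq_sum_card_fiberwise (f := fun z => f z.1) (t := Tup.image f) (fun z hz => by
      rw [mem_coe, mem_filter, mem_product] at hz
      exact mem_coe.2 (mem_image_of_mem f hz.1.1))]
    refine sum_congr rfl fun v _ => ?_
    rw [sq, ← card_product]
    congr 1
    ext z
    simp only [mem_filter, mem_product]
    constructor
    · rintro ⟨⟨⟨h3, h4⟩, h5⟩, h6⟩
      exact ⟨⟨h3, h6⟩, h4, by rw [← h5]; exact h6⟩
    · rintro ⟨⟨h3, h4⟩, h5, h6⟩
      exact ⟨⟨⟨h3, h5⟩, by rw [h4, h6]⟩, h4⟩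
  have h3 : ((Tup ×ˢ Tup).filter (fun z => f z.1 = f z.2)).card ≤ en t (vals (Polynomial.X ^ k) X) := by
    unfold en
    apply card_le_card
    intro z hz
    rw [mem_filter] at hz ⊢
    refine ⟨mem_univ _, ?_⟩
    have h4 : ∀ p : Fin t → Fin X, ∑ i, vals (Polynomial.X ^ k) X (p i) = ((f p : ℕ) : ℤ) := by
      intro p
      rw [hf]
      unfold vals
      push_cast
      refine sum_congr rfl fun i _ => ?_
      rw [Polynomial.eval_pow, Polynomial.eval_X]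
    rw [h4, h4, hz.2]
  have h4 : (Tup.image f).card ≤ cnt (SumH (Pw k E) t) (t * X ^ k) := by
    unfold cnt
    apply card_le_card
    intro v hv
    obtain ⟨p, hp, rfl⟩ := mem_image.1 hv
    rw [hTup, Fintype.mem_piFinset] at hp
    have hp' : ∀ i, E ((p i : ℕ) + 1) := fun i => (mem_filter.1 (hp i)).2
    rw [mem_filter, mem_Icc]
    refine ⟨⟨?_, ?_⟩, ?_⟩
    · rw [hf]
      change 1 ≤ ∑ i, ((p i : ℕ) + 1) ^ k
      calc 1 ≤ ((p ⟨0, ht⟩ : ℕ) + 1) ^ k := Nat.one_le_pow _ _ (Nat.succ_pos _)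
        _ ≤ _ := single_le_sum (f := fun i => ((p i : ℕ) + 1) ^ k) (fun _ _ => Nat.zero_le _) (mem_univ _)
    · rw [hf]
      change ∑ i, ((p i : ℕ) + 1) ^ k ≤ _
      calc ∑ i, ((p i : ℕ) + 1) ^ k ≤ ∑ _i : Fin t, X ^ k :=
            sum_le_sum fun i _ => Nat.pow_le_pow_left (p i).2 k
        _ = t * X ^ k := by simp
    · refine ⟨List.ofFn (fun i => ((p i : ℕ) + 1) ^ k), by simp, ?_, ?_⟩
      · intro y hy
        rw [List.mem_ofFn] at hy
        obtain ⟨i, rfl⟩ := hy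
        exact ⟨_, hp' i, rfl⟩
      · rw [List.sum_ofFn, hf]
  have h5 : Tup.card ^ 2 ≤ (Tup.image f).card * ∑ v ∈ Tup.image f, (Tup.filter (fun p => f p = v)).card ^ 2 := by
    rw [h1]
    have h6 := sq_sum_le_card_mul_sum_sq (s := Tup.image f)
      (f := fun v => ((Tup.filter (fun p => f p = v)).card : ℤ))
    exact_mod_cast h6
  have h7 : ((Icc 1 X).filter E).card ^ (2 * t) = Tup.card ^ 2 := by
    rw [hTc, ← pow_mul, mul_comm 2 t]
  rw [h7]
  refine h5.trans ?_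
  rw [← h2]
  exact Nat.mul_le_mul h4 h3

/-- the number of elements up to `L` -/
theorem dens_lower (s : ℤ) (hs : s = 1 ∨ s = -1) (β : ℝ) (hβ : 0 < β) : ∃ L₀ : ℕ, ∀ S : Set ℤ,
    Invariant S → ∀ ρ : ℝ, HasDensity s S ρ → β ≤ ρ → ∀ L : ℕ, L₀ ≤ L →
      β / 2 * L ≤ cnt (El s S) L := by
  classical
  obtain ⟨N₀, h⟩ := Pool.Agent.Results.MP_2d22f3_nt.GowersNorms.result.1 s hs 0 (β / 2) (by positivity)
  refine ⟨N₀, fun S hS ρ hρ hβρ L hL => ?_⟩
  obtain ⟨δ, hδ, h1⟩ := h S hS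
  have hδρ : δ = ρ := tendsto_nhds_unique hδ hρ
  subst hδρ
  have h2 := (h1 L hL 0 L (Nat.zero_le _) le_rfl).2 0 (by simp)
  have h3 : ∑ n ∈ Ioc 0 L, ((S.indicator (fun _ => (1 : ℝ)) (s * n) - δ : ℝ) : ℂ) *
      Pool.Agent.Results.MP_2d22f3_nt.GowersNorms.e ((0 : Polynomial ℝ).eval (n : ℝ)) =
      (((cnt (El s S) L : ℝ) - δ * L : ℝ) : ℂ) := by
    have h4 : ∀ n : ℕ, Pool.Agent.Results.MP_2d22f3_nt.GowersNorms.e ((0 : Polynomial ℝ).eval (n : ℝ)) = 1 := by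
      intro n
      unfold Pool.Agent.Results.MP_2d22f3_nt.GowersNorms.e
      simp
    simp only [h4, mul_one]
    rw [← Complex.ofReal_sum]
    congr 1
    rw [sum_sub_distrib, sum_const, Nat.card_Ioc, nsmul_eq_mul, Nat.sub_zero]
    congr 1
    · unfold cnt
      rw [card_filter]
      push_cast
      have h5 : Ioc 0 L = Icc 1 L := by
        ext m
        simp only [mem_Ioc, mem_Icc]
        omega
      rw [h5]
      refine sum_congr rfl fun n hn => ?_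
      rw [mem_Icc] at hn
      unfold El
      rw [Set.indicator_apply]
      by_cases h6 : s * (n : ℤ) ∈ S
      · rw [if_pos h6, if_pos ⟨hn.1, h6⟩]
      · rw [if_neg h6, if_neg (fun h7 => h6 h7.2)]
    · ring
  rw [h3, Complex.norm_real, Real.norm_eq_abs] at h2
  have h5 := (abs_le.1 h2).1
  have h6 : β * L ≤ δ * L := mul_le_mul_of_nonneg_right hβρ (Nat.cast_nonneg _)
  linarith

/-- the sums of `t` powers have positive lower density -/
theorem sums_dense (k : ℕ) (hk : 1 ≤ k) (s : ℤ) (hs : s = 1 ∨ s = -1) (β : ℝ) (hβ : 0 < β) :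
    ∃ (t : ℕ) (c : ℝ) (N₂ : ℕ), 1 ≤ t ∧ 0 < c ∧ ∀ S : Set ℤ, Invariant S → ∀ ρ : ℝ,
      HasDensity s S ρ → β ≤ ρ → ∀ N : ℕ, N₂ ≤ N → c * N ≤ cnt (SumH (Pw k (El s S)) t) N := by
  classical
  have hdeg : (Polynomial.X ^ k : Polynomial ℤ).natDegree = k := Polynomial.natDegree_X_pow k
  obtain ⟨t₀, C, hC, hE⟩ := Pool.Agent.Y834.CD.poly_energy (Polynomial.X ^ k) (by rw [hdeg]; exact hk)
    1 le_rfl
  obtain ⟨L₀, hL₀⟩ := dens_lower s hs β hβ
  obtain ⟨t, ht⟩ : ∃ t : ℕ, t = t₀ + 1 := ⟨_, rfl⟩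
  have ht1 : 1 ≤ t := by omega
  have htR : (1 : ℝ) ≤ t := by exact_mod_cast ht1
  refine ⟨t, (β / 2) ^ (2 * t) / C / (t * 2 ^ k), t * (L₀ + 1) ^ k, ht1, by positivity,
    fun S hS ρ hρ hβρ N hN => ?_⟩
  -- the size of the variables
  obtain ⟨X, hX⟩ : ∃ X : ℕ, X = Nat.findGreatest (fun X => t * X ^ k ≤ N) N := ⟨_, rfl⟩
  have hk0 : k ≠ 0 := by omega
  have hself : ∀ Y : ℕ, Y ≤ Y ^ k := fun Y => Nat.le_self_pow hk0 Y
  have hX1 : t * X ^ k ≤ N := by
    rw [hX]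
    exact Nat.findGreatest_spec (P := fun X => t * X ^ k ≤ N) (Nat.zero_le N) (by
      rw [zero_pow hk0, mul_zero]
      exact Nat.zero_le _)
  have hX2 : L₀ + 1 ≤ X := by
    rw [hX]
    refine Nat.le_findGreatest ?_ hN
    calc L₀ + 1 ≤ (L₀ + 1) ^ k := hself _
      _ ≤ t * (L₀ + 1) ^ k := Nat.le_mul_of_pos_left _ ht1
      _ ≤ N := hN
  have hX3 : N < t * (X + 1) ^ k := by
    by_contra hcon
    push Not at hcon
    have h1 : X + 1 ≤ N := by
      calc X + 1 ≤ (X + 1) ^ k := hself _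
        _ ≤ t * (X + 1) ^ k := Nat.le_mul_of_pos_left _ ht1
        _ ≤ N := hcon
    have h2 : X + 1 ≤ X := by
      conv_rhs => rw [hX]
      exact Nat.le_findGreatest h1 hcon
    omega
  have hXpos : 1 ≤ X := by omega
  have hX0 : (0 : ℝ) < X := by exact_mod_cast hXpos
  have h1 := many_sums k t X ht1 (El s S)
  have h2 : (cnt (El s S) X : ℕ) = ((Icc 1 X).filter (El s S)).card := rfl
  have h3 := hL₀ S hS ρ hρ hβρ X (by omega)
  have h4 := hE t (by omega) X (X ^ k) hXpos (Nat.one_le_pow _ _ hXpos) (by rw [hdeg, one_mul])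
  change (en t (vals (Polynomial.X ^ k) X) : ℝ) * ((X ^ k : ℕ) : ℝ) ≤ C * (X : ℝ) ^ (2 * t) at h4
  push_cast at h4
  have h5 : (β / 2 * X) ^ (2 * t) * (X : ℝ) ^ k ≤
      (cnt (SumH (Pw k (El s S)) t) (t * X ^ k) : ℝ) * (C * (X : ℝ) ^ (2 * t)) := by
    have h6 : (β / 2 * X) ^ (2 * t) ≤ ((cnt (SumH (Pw k (El s S)) t) (t * X ^ k) *
        en t (vals (Polynomial.X ^ k) X) : ℕ) : ℝ) := by
      calc (β / 2 * X) ^ (2 * t) ≤ ((cnt (El s S) X : ℕ) : ℝ) ^ (2 * t) :=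
            pow_le_pow_left₀ (by positivity) h3 _
        _ ≤ _ := by
            rw [h2]
            exact_mod_cast h1
    push_cast at h6
    calc (β / 2 * X) ^ (2 * t) * (X : ℝ) ^ k ≤ ((cnt (SumH (Pw k (El s S)) t) (t * X ^ k) : ℝ) *
        (en t (vals (Polynomial.X ^ k) X) : ℝ)) * (X : ℝ) ^ k :=
          mul_le_mul_of_nonneg_right h6 (by positivity)
      _ = (cnt (SumH (Pw k (El s S)) t) (t * X ^ k) : ℝ) *
        ((en t (vals (Polynomial.X ^ k) X) : ℝ) * (X : ℝ) ^ k) := by ring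
      _ ≤ _ := mul_le_mul_of_nonneg_left h4 (by positivity)
  have h7 : (β / 2) ^ (2 * t) / C * (X : ℝ) ^ k ≤ (cnt (SumH (Pw k (El s S)) t) (t * X ^ k) : ℝ) := by
    have h8 : (0 : ℝ) < (X : ℝ) ^ (2 * t) := by positivity
    rw [mul_pow] at h5
    have h9 : ((β / 2) ^ (2 * t) * (X : ℝ) ^ k) * (X : ℝ) ^ (2 * t) ≤
        ((cnt (SumH (Pw k (El s S)) t) (t * X ^ k) : ℝ) * C) * (X : ℝ) ^ (2 * t) := by linarith
    have h10 := le_of_mul_le_mul_right h9 h8
    rw [div_mul_eq_mul_div, div_le_iff₀ hC]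
    exact h10
  have h8 : (cnt (SumH (Pw k (El s S)) t) (t * X ^ k) : ℝ) ≤ cnt (SumH (Pw k (El s S)) t) N := by
    have h9 : cnt (SumH (Pw k (El s S)) t) (t * X ^ k) ≤ cnt (SumH (Pw k (El s S)) t) N := by
      unfold cnt
      apply card_le_card
      intro m hm
      rw [mem_filter, mem_Icc] at hm ⊢
      exact ⟨⟨hm.1.1, hm.1.2.trans hX1⟩, hm.2⟩
    exact_mod_cast h9
  have h9 : (N : ℝ) ≤ t * 2 ^ k * (X : ℝ) ^ k := by
    have h10 : N ≤ t * (2 * X) ^ k := by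
      refine hX3.le.trans (Nat.mul_le_mul_left _ (Nat.pow_le_pow_left (by omega) k))
    rw [mul_pow, ← mul_assoc] at h10
    exact_mod_cast h10
  refine le_trans ?_ (h7.trans h8)
  calc (β / 2) ^ (2 * t) / C / (t * 2 ^ k) * N ≤ (β / 2) ^ (2 * t) / C / (t * 2 ^ k) *
        (t * 2 ^ k * (X : ℝ) ^ k) := mul_le_mul_of_nonneg_left h9 (by positivity)
    _ = (β / 2) ^ (2 * t) / C * (X : ℝ) ^ k := by field_simp

end Pool.Agent.V11270.CZ.War
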