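import Mathlib
import Pool.Agent.V11270.CZ.WarB

set_option autoImplicit false

/-!
# Waring's theorem with variables in Collatz-invariant sets

Consecutive integers which are sums of the same number of powers, and Schnirelmann's theorem.
-/

namespace Pool.Agent.V11270.CZ.War

open Finset
open Pool.Agent.W851.Had (cnt SumH SumH_add SumH_zero cnt_mono schn cnt_le Sum2)
open Pool.Agent.Results.MP_2d22f3_nt.GowersNorms (Invariant HasDensity)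

/-- an element of a class `p x + c` with `c = 0` or `c = s` -/
theorem class_el (p : ℕ) (hp : 1 ≤ p) (s : ℤ) (hs : s = 1 ∨ s = -1) (β : ℝ) (hβ : 0 < β) :
    ∃ Y : ℕ, ∀ S : Set ℤ, Invariant S → ∀ ρ : ℝ, HasDensity s S ρ → β ≤ ρ →
      (∃ x, x ≤ Y ∧ El s S x ∧ p ∣ x) ∧ ∃ x, x ≤ Y ∧ El s S x ∧ p ∣ x - 1 := by
  classical
  have hpZ : (1 : ℤ) ≤ p := by exact_mod_cast hp
  obtain ⟨Λ, hΛ⟩ : ∃ Λ : Fin 1 → Fin 1 → ℤ, Λ = fun _ _ => (p : ℤ) := ⟨_, rfl⟩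
  obtain ⟨v, hv⟩ : ∃ v : Fin 1 → ℤ, v = fun _ => 1 := ⟨_, rfl⟩
  have hsum : ∀ x : Fin 1 → ℤ, ∑ j, Λ 0 j * x j = p * x 0 := by
    intro x
    rw [hΛ]
    simp
  have hvpos : ∀ i, 0 < ∑ j, Λ i j * v j := by
    intro i
    rw [Subsingleton.elim i 0, hsum, hv]
    linarith
  obtain ⟨u₀, h⟩ := forms_in Λ (fun i h => by
      have := congrFun h 0
      rw [hΛ] at this
      simp only [Pi.zero_apply] at this
      omega)
    (fun i j hij => absurd (Subsingleton.elim i j) hij) v hvpos hs hβ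
  obtain ⟨u, hu⟩ : ∃ u : ℕ, u = u₀ + 1 := ⟨_, rfl⟩
  have huZ : (1 : ℤ) ≤ u := by omega
  refine ⟨KK Λ v * u, fun S hS ρ hρ hβρ => ?_⟩
  have key : ∀ c : ℤ, |c| ≤ 1 → ∃ x : ℤ, 2 * (u : ℤ) ≤ p * x ∧ p * x + u ≤ KK Λ v * u ∧
      s * (p * x) + c ∈ S := by
    intro c hc
    have h1 := h (fun _ => S) (fun _ => ρ) (fun _ => hS) (fun _ => hρ) (fun _ => hβρ) u (by omega)
      (fun _ => c) (fun _ => hc.trans huZ)
    have h2 : 0 < β ^ 1 / 2 * (u : ℝ) ^ 1 := by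
      have : (0 : ℝ) < u := by exact_mod_cast (by omega : 0 < u)
      positivity
    have h3 : 0 < {x : Fin 1 → ℤ | x ∈ Box v (AA Λ) u ∧ ∀ i, s * (∑ j, Λ i j * x j) + c ∈ S}.ncard := by
      exact_mod_cast h2.trans_le h1
    obtain ⟨x, hx, hxS⟩ := (Set.ncard_pos ((box_finite v (AA Λ) u).subset fun x hx => hx.1)).1 h3
    have h4 := form_bounds Λ v hvpos u x hx 0
    have h5 := hxS 0
    rw [hsum] at h4 h5
    exact ⟨x 0, h4.1, h4.2, h5⟩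
  constructor
  · obtain ⟨x, h1, h2, h3⟩ := key 0 (by norm_num)
    refine ⟨(p * x).toNat, ?_, ⟨?_, ?_⟩, ?_⟩
    · zify
      rw [Int.toNat_of_nonneg (by linarith)]
      linarith
    · have : 0 < p * x := by linarith
      omega
    · rw [Int.toNat_of_nonneg (by linarith)]
      rw [add_zero] at h3
      exact h3
    · rw [← Int.natCast_dvd_natCast, Int.toNat_of_nonneg (by linarith)]
      exact Dvd.intro _ rfl
  · obtain ⟨x, h1, h2, h3⟩ := key s (by rcases hs with rfl | rfl <;> norm_num)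
    have h4 : ((p * x + 1).toNat : ℤ) = p * x + 1 := Int.toNat_of_nonneg (by linarith)
    refine ⟨(p * x + 1).toNat, ?_, ⟨?_, ?_⟩, ?_⟩
    · zify
      rw [h4]
      linarith
    · have : 0 < p * x := by linarith
      omega
    · rw [h4]
      have h5 : s * (p * x + 1) = s * (p * x) + s := by ring
      rw [h5]
      exact h3
    · have h5 : (p * x + 1).toNat - 1 = (p * x).toNat := by omega
      rw [h5, ← Int.natCast_dvd_natCast, Int.toNat_of_nonneg (by linarith)]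
      exact Dvd.intro _ rfl

/-- doubling -/
theorem El_double {s : ℤ} {S : Set ℤ} (hS : Invariant S) {x : ℕ} (hx : El s S x) : El s S (2 * x) := by
  refine ⟨by have := hx.1; omega, ?_⟩
  have h1 := hS (s * ((2 * x : ℕ) : ℤ))
  unfold Pool.Agent.Results.MP_2d22f3_nt.GowersNorms.C at h1
  rw [if_pos (by push_cast; rw [← mul_assoc, mul_comm s 2, mul_assoc, Int.mul_emod_right])] at h1
  rw [h1]
  have h2 : s * ((2 * x : ℕ) : ℤ) / 2 = s * x := by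
    push_cast
    rw [← mul_assoc, mul_comm s 2, mul_assoc, Int.mul_ediv_cancel_left _ (by norm_num)]
  rw [h2]
  exact hx.2

/-- consecutive sums for a finite set -/
theorem consecutive (k : ℕ) (hk : 1 ≤ k) (F : ℕ → Prop) (y₀ D₀ : ℕ) (hy₀ : 1 ≤ y₀) (h1 : F y₀)
    (h2 : F (2 * y₀)) (hD₀ : (2 ^ k - 1) * y₀ ^ k ≤ D₀)
    (hF : ∀ p : ℕ, p.Prime → p ≤ D₀ → (∃ x, F x ∧ p ∣ x) ∧ ∃ x, F x ∧ ¬ p ∣ x) :
    ∃ r v : ℕ, SumH (Pw k F) r v ∧ SumH (Pw k F) r (v + 1) := by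
  -- the differences of sums with the same number of terms
  obtain ⟨G, hG⟩ : ∃ G : AddSubgroup ℤ, ∀ d : ℤ, d ∈ G ↔ ∃ r u v : ℕ, SumH (Pw k F) r u ∧
      SumH (Pw k F) r v ∧ (u : ℤ) - v = d := by
    refine ⟨{ carrier := {d : ℤ | ∃ r u v : ℕ, SumH (Pw k F) r u ∧ SumH (Pw k F) r v ∧ (u : ℤ) - v = d}
              zero_mem' := ?_
              add_mem' := ?_
              neg_mem' := ?_ }, fun d => Iff.rfl⟩
    · rintro a b ⟨r, u, v, h3, h4, rfl⟩ ⟨r', u', v', h3', h4', rfl⟩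
      refine ⟨r + r', u + u', v + v', SumH_add _ _ _ _ ⟨u, u', h3, h3', rfl⟩,
        SumH_add _ _ _ _ ⟨v, v', h4, h4', rfl⟩, ?_⟩
      push_cast
      ring
    · exact ⟨0, 0, 0, ⟨[], rfl, by simp, rfl⟩, ⟨[], rfl, by simp, rfl⟩, by simp⟩
    · rintro a ⟨r, u, v, h3, h4, rfl⟩
      exact ⟨r, v, u, h4, h3, by ring⟩
  have hone : ∀ x, F x → SumH (Pw k F) 1 (x ^ k) := fun x hx =>
    ⟨[x ^ k], rfl, fun y hy => by
      rw [List.mem_singleton] at hy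
      exact ⟨x, hx, hy.symm⟩, by simp⟩
  have hdiff : ∀ x y, F x → F y → ((x ^ k : ℕ) : ℤ) - ((y ^ k : ℕ) : ℤ) ∈ G := fun x y hx hy =>
    (hG _).2 ⟨1, x ^ k, y ^ k, hone x hx, hone y hy, rfl⟩
  obtain ⟨g, hg⟩ := Int.subgroup_cyclic G
  have hgG : ∀ d ∈ G, g ∣ d := by
    intro d hd
    rw [hg, AddSubgroup.mem_closure_singleton] at hd
    obtain ⟨n, hn⟩ := hd
    rw [smul_eq_mul] at hn
    exact ⟨n, by rw [← hn]; ring⟩
  have hg1 : g.natAbs = 1 := by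
    by_contra hcon
    have hd := hgG _ (hdiff _ _ h2 h1)
    have e1 : (((2 * y₀) ^ k : ℕ) : ℤ) - ((y₀ ^ k : ℕ) : ℤ) = (((2 ^ k - 1) * y₀ ^ k : ℕ) : ℤ) := by
      have : 1 ≤ 2 ^ k := Nat.one_le_two_pow
      push_cast [Nat.cast_sub this]
      rw [mul_pow]
      ring
    rw [e1, ← Int.natAbs_dvd, Int.natCast_dvd_natCast] at hd
    have hpos : 0 < (2 ^ k - 1) * y₀ ^ k := by
      have e2 : 2 ≤ 2 ^ k := by
        calc 2 = 2 ^ 1 := rfl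
          _ ≤ 2 ^ k := Nat.pow_le_pow_right (by norm_num) hk
      have e3 : 0 < y₀ ^ k := Nat.pos_of_ne_zero (by positivity)
      exact Nat.mul_pos (by omega) e3
    have hgle : g.natAbs ≤ D₀ := (Nat.le_of_dvd hpos hd).trans hD₀
    obtain ⟨p, hp, hpg⟩ := Nat.exists_prime_and_dvd hcon
    have hg0 : 0 < g.natAbs := Nat.pos_of_dvd_of_pos hd hpos
    obtain ⟨⟨x, hx, hpx⟩, ⟨y, hy, hpy⟩⟩ := hF p hp ((Nat.le_of_dvd hg0 hpg).trans hgle)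
    have h5 := hgG _ (hdiff y x hy hx)
    have h6 : (p : ℤ) ∣ ((y ^ k : ℕ) : ℤ) - ((x ^ k : ℕ) : ℤ) :=
      (Int.natCast_dvd.2 hpg).trans h5
    have h7 : (p : ℤ) ∣ ((x ^ k : ℕ) : ℤ) := by
      rw [Int.natCast_dvd_natCast]
      exact dvd_pow hpx (by omega)
    have h8 : (p : ℤ) ∣ ((y ^ k : ℕ) : ℤ) := by
      have := dvd_add h6 h7
      rwa [sub_add_cancel] at this
    rw [Int.natCast_dvd_natCast] at h8
    exact hpy (hp.dvd_of_dvd_pow h8)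
  have h1G : (1 : ℤ) ∈ G := by
    rw [hg, AddSubgroup.mem_closure_singleton]
    rcases Int.natAbs_eq g with h | h
    · exact ⟨1, by rw [h, hg1]; simp⟩
    · exact ⟨-1, by rw [h, hg1]; simp⟩
  obtain ⟨r, u, v, h3, h4, h5⟩ := (hG 1).1 h1G
  refine ⟨r, v, h4, ?_⟩
  have : u = v + 1 := by omega
  rw [← this]
  exact h3

/-- consecutive sums, uniformly -/
theorem consecutive_uniform (k : ℕ) (hk : 1 ≤ k) (s : ℤ) (hs : s = 1 ∨ s = -1) (β : ℝ) (hβ : 0 < β) :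
    ∃ R V Y₀ : ℕ, ∀ S : Set ℤ, Invariant S → ∀ ρ : ℝ, HasDensity s S ρ → β ≤ ρ →
      (∃ v ≤ V, SumH (Pw k (El s S)) R v ∧ SumH (Pw k (El s S)) R (v + 1)) ∧
        ∃ y ≤ Y₀, El s S y := by
  classical
  obtain ⟨Y₁, hY₁⟩ := class_el 1 le_rfl s hs β hβ
  obtain ⟨D₀, hD₀⟩ : ∃ D₀ : ℕ, D₀ = (2 ^ k - 1) * Y₁ ^ k := ⟨_, rfl⟩
  choose! Yp hYp using (fun (p : ℕ) (hp : 1 ≤ p) => class_el p hp s hs β hβ)
  obtain ⟨Y, hY⟩ : ∃ Y : ℕ, Y = 2 * Y₁ + ∑ p ∈ Icc 1 D₀, Yp p := ⟨_, rfl⟩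
  -- all finite sets
  have hex : ∀ F : Finset ℕ, ∃ r v : ℕ, (∃ r v, SumH (Pw k (fun x => x ∈ F)) r v ∧
      SumH (Pw k (fun x => x ∈ F)) r (v + 1)) → SumH (Pw k (fun x => x ∈ F)) r v ∧
      SumH (Pw k (fun x => x ∈ F)) r (v + 1) := by
    intro F
    by_cases h : ∃ r v, SumH (Pw k (fun x => x ∈ F)) r v ∧ SumH (Pw k (fun x => x ∈ F)) r (v + 1)
    · obtain ⟨r, v, h1⟩ := h
      exact ⟨r, v, fun _ => h1⟩
    · exact ⟨0, 0, fun h1 => absurd h1 h⟩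
  choose r v hrv using hex
  obtain ⟨R, hR⟩ : ∃ R : ℕ, R = ∑ F ∈ (Icc 1 Y).powerset, r F := ⟨_, rfl⟩
  obtain ⟨V, hV⟩ : ∃ V : ℕ, V = ∑ F ∈ (Icc 1 Y).powerset, v F := ⟨_, rfl⟩
  refine ⟨R, V + R * Y ^ k, Y₁, fun S hS ρ hρ hβρ => ?_⟩
  obtain ⟨⟨y₀, hy₀, hy₀E, -⟩, -⟩ := hY₁ S hS ρ hρ hβρ
  refine ⟨?_, y₀, hy₀, hy₀E⟩
  obtain ⟨F, hF⟩ : ∃ F : Finset ℕ, F = (Icc 1 Y).filter (El s S) := ⟨_, rfl⟩
  have hmemF : ∀ x, x ≤ Y → El s S x → x ∈ F := by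
    intro x hx hE
    rw [hF, mem_filter, mem_Icc]
    exact ⟨⟨hE.1, hx⟩, hE⟩
  have hFE : ∀ x, x ∈ F → El s S x := by
    intro x hx
    rw [hF, mem_filter] at hx
    exact hx.2
  have hFP : F ∈ (Icc 1 Y).powerset := by
    rw [mem_powerset, hF]
    exact filter_subset _ _
  have hcon := consecutive k hk (fun x => x ∈ F) y₀ D₀ hy₀E.1 (hmemF y₀ (by omega) hy₀E)
    (hmemF (2 * y₀) (by omega) (El_double hS hy₀E)) (by
      rw [hD₀]
      exact Nat.mul_le_mul_left _ (Nat.pow_le_pow_left hy₀ k))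
    (fun p hp hpD => by
      obtain ⟨⟨x, hx, hxE, hpx⟩, ⟨y, hy, hyE, hpy⟩⟩ := hYp p hp.one_lt.le S hS ρ hρ hβρ
      have hYY : Yp p ≤ Y := by
        rw [hY]
        have := single_le_sum (f := Yp) (fun _ _ => Nat.zero_le _) (mem_Icc.2 ⟨hp.one_lt.le, hpD⟩)
        omega
      refine ⟨⟨x, hmemF x (hx.trans hYY) hxE, hpx⟩, ⟨y, hmemF y (hy.trans hYY) hyE, fun h => ?_⟩⟩
      have h1 := hyE.1
      have h2 : p ∣ y - (y - 1) := Nat.dvd_sub h hpy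
      have h3 : y - (y - 1) = 1 := by omega
      rw [h3] at h2
      exact hp.one_lt.ne' (Nat.dvd_one.1 h2))
  obtain ⟨h1, h2⟩ := hrv F hcon
  have hrR : r F ≤ R := by
    rw [hR]
    exact single_le_sum (f := r) (fun _ _ => Nat.zero_le _) hFP
  have hvV : v F ≤ V := by
    rw [hV]
    exact single_le_sum (f := v) (fun _ _ => Nat.zero_le _) hFP
  have hPw : ∀ m, Pw k (fun x => x ∈ F) m → Pw k (El s S) m := by
    rintro m ⟨x, hx, hxm⟩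
    exact ⟨x, hFE x hx, hxm⟩
  have hpad : SumH (Pw k (El s S)) (R - r F) ((R - r F) * y₀ ^ k) := SumH_rep ⟨y₀, hy₀E, rfl⟩ _
  have hRr : r F + (R - r F) = R := by omega
  refine ⟨v F + (R - r F) * y₀ ^ k, ?_, ?_, ?_⟩
  · have e1 : (R - r F) * y₀ ^ k ≤ R * Y ^ k :=
      Nat.mul_le_mul (Nat.sub_le _ _) (Nat.pow_le_pow_left (by omega) k)
    omega
  · rw [← hRr]
    conv_rhs => rw [hRr]
    exact SumH_add _ _ _ _ ⟨v F, _, SumH_mono hPw _ _ h1, hpad, rfl⟩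
  · rw [← hRr]
    conv_rhs => rw [hRr]
    exact SumH_add _ _ _ _ ⟨v F + 1, _, SumH_mono hPw _ _ h2, hpad, by ring⟩

end Pool.Agent.V11270.CZ.War
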