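import Mathlib
import Pool.Agent.V11270.CZ.WarC

set_option autoImplicit false

/-!
# Waring's theorem with variables in Collatz-invariant sets: the conclusion
-/

namespace Pool.Agent.V11270.CZ.War

open Finset
open Pool.Agent.W851.Had (cnt SumH SumH_add SumH_zero cnt_mono schn cnt_le Sum2)
open Pool.Agent.Results.MP_2d22f3_nt.GowersNorms (Invariant HasDensity)

/-- sums of shifted sums -/
theorem SumH_shift {A : ℕ → Prop} {r a : ℕ} (l : List ℕ) (hl : ∀ y ∈ l, SumH A r (y + a)) :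
    SumH A (l.length * r) (l.sum + l.length * a) := by
  induction l with
  | nil => exact ⟨[], by simp, by simp, by simp⟩
  | cons b l ih =>
    have h1 := ih fun y hy => hl y (List.mem_cons_of_mem _ hy)
    have h2 := hl b List.mem_cons_self
    have h3 := SumH_add A _ _ _ ⟨_, _, h1, h2, rfl⟩
    rw [List.length_cons, List.sum_cons]
    have e1 : (l.length + 1) * r = l.length * r + r := by ring
    have e2 : b + l.sum + (l.length + 1) * a = l.sum + l.length * a + (b + a) := by ring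
    rw [e1, e2]
    exact h3

/-- **Waring's theorem in invariant sets**, for one sign -/
theorem waring_s (k : ℕ) (hk : 1 ≤ k) (s : ℤ) (hs : s = 1 ∨ s = -1) (β : ℝ) (hβ : 0 < β) :
    ∃ H : ℕ, ∀ H' : ℕ, H ≤ H' → ∃ N₁ : ℕ, ∀ S : Set ℤ, Invariant S → ∀ ρ : ℝ, HasDensity s S ρ →
      β ≤ ρ → ∀ N : ℕ, N₁ ≤ N → SumH (Pw k (El s S)) H' N := by
  classical
  obtain ⟨t, c, N₂, ht, hc, hdense⟩ := sums_dense k hk s hs β hβ
  obtain ⟨R, V, Y₀, hcons⟩ := consecutive_uniform k hk s hs β hβ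
  obtain ⟨A₀, hA₀⟩ : ∃ A₀ : ℕ, A₀ = t * Y₀ ^ k := ⟨_, rfl⟩
  obtain ⟨N₄, hN₄⟩ : ∃ N₄ : ℕ, N₄ = N₂ + ⌈2 * (A₀ : ℝ) / c⌉₊ + 1 := ⟨_, rfl⟩
  have hN₄0 : (0 : ℝ) < N₄ := by
    rw [hN₄]
    positivity
  obtain ⟨δ, hδ⟩ : ∃ δ : ℝ, δ = min (min (c / 2) (1 / N₄)) 1 := ⟨_, rfl⟩
  have hδ0 : 0 < δ := by
    rw [hδ]
    exact lt_min (lt_min (by positivity) (by positivity)) one_pos
  have hδ1 : δ ≤ 1 := by rw [hδ]; exact min_le_right _ _
  have hδc : δ ≤ c / 2 := by rw [hδ]; exact (min_le_left _ _).trans (min_le_left _ _)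
  have hδN : δ ≤ 1 / N₄ := by rw [hδ]; exact (min_le_left _ _).trans (min_le_right _ _)
  obtain ⟨h, hh⟩ : ∃ h : ℕ, h = ⌈1 / δ⌉₊ := ⟨_, rfl⟩
  have hδh : 1 ≤ δ * h := by
    have h1 : 1 / δ ≤ h := by rw [hh]; exact Nat.le_ceil _
    rw [div_le_iff₀ hδ0] at h1
    linarith
  refine ⟨(h + h) * (R + t), fun H' hH' => ⟨(h + h) * (V + A₀) + (H' - (h + h) * (R + t)) * Y₀ ^ k,
    fun S hS ρ hρ hβρ N hN => ?_⟩⟩
  obtain ⟨⟨v, hvV, hv1, hv2⟩, y, hyY, hyE⟩ := hcons S hS ρ hρ hβρ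
  obtain ⟨a₀, ha₀⟩ : ∃ a₀ : ℕ, a₀ = t * y ^ k := ⟨_, rfl⟩
  have ha₀A : a₀ ≤ A₀ := by
    rw [ha₀, hA₀]
    exact Nat.mul_le_mul_left _ (Nat.pow_le_pow_left hyY k)
  have ha₀S : SumH (Pw k (El s S)) t a₀ := by
    rw [ha₀]
    exact SumH_rep ⟨y, hyE, rfl⟩ t
  obtain ⟨B, hB⟩ : ∃ B : ℕ → Prop, B = fun b => SumH (Pw k (El s S)) (R + t) (b + (v + a₀)) := ⟨_, rfl⟩
  have hB0 : B 0 := by
    rw [hB]
    change SumH _ _ (0 + (v + a₀))
    rw [zero_add]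
    exact SumH_add _ _ _ _ ⟨v, a₀, hv1, ha₀S, rfl⟩
  have hB1 : B 1 := by
    rw [hB]
    change SumH _ _ (1 + (v + a₀))
    exact SumH_add _ _ _ _ ⟨v + 1, a₀, hv2, ha₀S, by ring⟩
  have hBt : ∀ b, SumH (Pw k (El s S)) t (b + a₀) → B b := by
    intro b hb
    rw [hB]
    exact SumH_add _ _ _ _ ⟨v, b + a₀, hv1, hb, by ring⟩
  -- the Schnirelmann density
  have hcnt : ∀ n : ℕ, δ * n ≤ cnt B n := by
    intro n
    rcases Nat.eq_zero_or_pos n with hn | hn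
    · rw [hn]
      simp
    by_cases hnN : n < N₄
    · have h1 : 1 ≤ cnt B n := by
        unfold cnt
        exact card_pos.2 ⟨1, by rw [mem_filter, mem_Icc]; exact ⟨⟨le_rfl, hn⟩, hB1⟩⟩
      have h2 : (n : ℝ) ≤ N₄ := by exact_mod_cast hnN.le
      calc δ * n ≤ 1 / N₄ * N₄ := mul_le_mul hδN h2 (Nat.cast_nonneg _) (by positivity)
        _ = 1 := by field_simp
        _ ≤ _ := by exact_mod_cast h1
    · push Not at hnN
      have h1 := hdense S hS ρ hρ hβρ (n + a₀) (by omega)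
      have h2 : cnt (SumH (Pw k (El s S)) t) (n + a₀) ≤ cnt B n + a₀ := by
        have h3 : (Icc 1 (n + a₀)).filter (SumH (Pw k (El s S)) t) ⊆
            ((Icc 1 n).filter B).image (fun b => b + a₀) ∪ Icc 1 a₀ := by
          intro m hm
          rw [mem_filter, mem_Icc] at hm
          rw [mem_union, mem_image, mem_Icc]
          by_cases h4 : m ≤ a₀
          · right
            exact ⟨hm.1.1, h4⟩
          · left
            refine ⟨m - a₀, ?_, by omega⟩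
            rw [mem_filter, mem_Icc]
            refine ⟨by omega, hBt _ ?_⟩
            have h5 : m - a₀ + a₀ = m := by omega
            rw [h5]
            exact hm.2
        unfold cnt
        calc ((Icc 1 (n + a₀)).filter (SumH (Pw k (El s S)) t)).card ≤ _ := card_le_card h3
          _ ≤ (((Icc 1 n).filter B).image (fun b => b + a₀)).card + (Icc 1 a₀).card := card_union_le _ _
          _ ≤ ((Icc 1 n).filter B).card + a₀ := by
              rw [Nat.card_Icc, Nat.add_sub_cancel]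
              exact Nat.add_le_add_right card_image_le _
      have h3 : (cnt (SumH (Pw k (El s S)) t) (n + a₀) : ℝ) ≤ cnt B n + a₀ := by exact_mod_cast h2
      have h4 : (a₀ : ℝ) ≤ A₀ := by exact_mod_cast ha₀A
      have h5 : 2 * (A₀ : ℝ) / c ≤ n := by
        have h6 : ⌈2 * (A₀ : ℝ) / c⌉₊ ≤ n := by omega
        exact (Nat.le_ceil _).trans (by exact_mod_cast h6)
      rw [div_le_iff₀ hc] at h5
      have h6 : c * n ≤ c * ((n + a₀ : ℕ) : ℝ) := by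
        apply mul_le_mul_of_nonneg_left _ hc.le
        push_cast
        have : (0 : ℝ) ≤ a₀ := Nat.cast_nonneg _
        linarith
      have h7 : δ * n ≤ c / 2 * n := mul_le_mul_of_nonneg_right hδc (Nat.cast_nonneg _)
      linarith
  -- conclusion
  obtain ⟨q, hq⟩ : ∃ q : ℕ, q = H' - (h + h) * (R + t) := ⟨_, rfl⟩
  rw [← hq] at hN
  obtain ⟨n, hn⟩ : ∃ n : ℕ, N = n + (h + h) * (v + a₀) + q * y ^ k := by
    refine ⟨N - ((h + h) * (v + a₀) + q * y ^ k), ?_⟩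
    have h1 : (h + h) * (v + a₀) ≤ (h + h) * (V + A₀) := Nat.mul_le_mul_left _ (by omega)
    have h2 : q * y ^ k ≤ q * Y₀ ^ k := Nat.mul_le_mul_left _ (Nat.pow_le_pow_left hyY k)
    omega
  obtain ⟨l, hl1, hl2, hl3⟩ := schn B n h δ hδ1 hδh hB0 (fun m _ => hcnt m) n le_rfl
  have h1 := SumH_shift (A := Pw k (El s S)) (r := R + t) (a := v + a₀) l (fun y hy => by
    have := hl2 y hy
    rw [hB] at this
    exact this)
  rw [hl1, hl3] at h1
  have h2 : SumH (Pw k (El s S)) q (q * y ^ k) := SumH_rep ⟨y, hyE, rfl⟩ q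
  have h3 := SumH_add _ _ _ _ ⟨_, _, h1, h2, rfl⟩
  rw [hn]
  have h4 : (h + h) * (R + t) + q = H' := by omega
  rw [← h4]
  exact h3

/-- **Waring's theorem in invariant sets.** -/
theorem waring (k : ℕ) (hk : 1 ≤ k) (β : ℝ) (hβ : 0 < β) : ∃ H N₁ : ℕ, ∀ s : ℤ, (s = 1 ∨ s = -1) →
    ∀ S : Set ℤ, Invariant S → ∀ ρ : ℝ, HasDensity s S ρ → β ≤ ρ → ∀ N : ℕ, N₁ ≤ N →
      ∃ x : Fin H → ℕ, (∀ i, 1 ≤ x i ∧ s * (x i : ℤ) ∈ S) ∧ ∑ i, x i ^ k = N := by
  obtain ⟨H₁, h1⟩ := waring_s k hk 1 (Or.inl rfl) β hβ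
  obtain ⟨H₂, h2⟩ := waring_s k hk (-1) (Or.inr rfl) β hβ
  obtain ⟨N₁, h3⟩ := h1 (H₁ + H₂) (by omega)
  obtain ⟨N₂, h4⟩ := h2 (H₁ + H₂) (by omega)
  refine ⟨H₁ + H₂, N₁ + N₂, fun s hs S hS ρ hρ hβρ N hN => ?_⟩
  have h5 : SumH (Pw k (El s S)) (H₁ + H₂) N := by
    rcases hs with rfl | rfl
    · exact h3 S hS ρ hρ hβρ N (by omega)
    · exact h4 S hS ρ hρ hβρ N (by omega)
  obtain ⟨l, hl1, hl2, hl3⟩ := h5
  have h6 : ∀ i : Fin (H₁ + H₂), ∃ x, El s S x ∧ x ^ k = l.get (Fin.cast hl1.symm i) := fun i =>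
    hl2 _ (List.get_mem _ _)
  choose x hx1 hx2 using h6
  refine ⟨x, fun i => hx1 i, ?_⟩
  simp only [hx2]
  rw [← hl3]
  have h7 : ∑ i : Fin (H₁ + H₂), l.get (Fin.cast hl1.symm i) = ∑ i : Fin l.length, l.get i :=
    Fintype.sum_equiv (finCongr hl1.symm) _ _ fun i => rfl
  rw [h7, ← List.sum_ofFn, List.ofFn_get]

end Pool.Agent.V11270.CZ.War
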